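import Pool.Agent.TH431.RB.Stmts

set_option autoImplicit false

namespace Pool.Agent.TH431.RB

open Pool.Agent.H867R4

section GB1

variable {Q α : Type}

theorem wd_cons (v : Bool → List α) (p : Bool × Bool) (μ : List (Bool × Bool)) :
    wd v (p :: μ) = (v p.1).map (fun a => (a, p.2)) ++ wd v μ := rfl

/-- forgetting the marks of the word -/
theorem wd_map_fst (v : Bool → List α) (μ : List (Bool × Bool)) :
    (wd v μ).map Prod.fst = ((μ.map Prod.fst).map v).flatten := by
  induction μ with
  | nil => rfl
  | cons p μ ih =>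
    rw [wd_cons, List.map_append, ih, List.map_cons, List.map_cons, List.flatten_cons,
      List.map_map]
    congr 1
    have : (Prod.fst ∘ fun a : α => (a, p.2)) = id := rfl
    rw [this, List.map_id]

/-- the letters of the marked word -/
theorem wd_get {v : Bool → List α} {V : ℕ} (hV : 1 ≤ V) (hv : ∀ b, (v b).length = V)
    (μ : List (Bool × Bool)) : ∀ (p : ℕ) (z : α × Bool), (wd v μ)[p]? = some z →
      (μ[p / V]?).map Prod.snd = some z.2 := by
  induction μ with
  | nil =>
    intro p z h
    simp [wd] at h
  | cons q μ ih =>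
    intro p z h
    rw [wd_cons] at h
    have hl : ((v q.1).map (fun a => (a, q.2))).length = V := by rw [List.length_map, hv]
    rcases lt_or_ge p V with hp | hp
    · rw [List.getElem?_append_left (by rw [hl]; exact hp), List.getElem?_map] at h
      rw [Nat.div_eq_of_lt hp]
      obtain ⟨a, _, ha⟩ := Option.map_eq_some_iff.1 h
      rw [← ha]
      rfl
    · rw [List.getElem?_append_right (by rw [hl]; exact hp), hl] at h
      have h1 := ih (p - V) z h
      have e : p / V = (p - V) / V + 1 := by
        conv_lhs => rw [← Nat.sub_add_cancel hp]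
        rw [Nat.add_div_right _ (by omega)]
      rw [e, List.getElem?_cons_succ]
      exact h1

/-- the marking of the letters with numbers in `K` -/
def mk (K : Finset ℕ) (l : List Bool) : List (Bool × Bool) :=
  l.zipIdx.map fun p => (p.1, decide (p.2 ∈ K))

theorem mk_fst (K : Finset ℕ) (l : List Bool) : (mk K l).map Prod.fst = l := by
  unfold mk
  rw [List.map_map]
  exact List.zipIdx_map_fst 0 l

theorem mk_get (K : Finset ℕ) (l : List Bool) (j : ℕ) :
    ((mk K l)[j]?).map Prod.snd = (l[j]?).map fun _ => decide (j ∈ K) := by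
  unfold mk
  rw [List.getElem?_map, List.getElem?_zipIdx, Option.map_map, Option.map_map]
  cases l[j]? with
  | none => rfl
  | some a => simp

theorem countP_zipIdx_le (K : Finset ℕ) (l : List Bool) : ∀ n : ℕ,
    ((l.zipIdx n).map fun p => (p.1, decide (p.2 ∈ K))).countP (fun p => p.2) ≤
      (K.filter fun j => n ≤ j).card := by
  induction l with
  | nil =>
    intro n
    simp
  | cons a l ih =>
    intro n
    rw [List.zipIdx_cons, List.map_cons, List.countP_cons]
    have h1 := ih (n + 1)
    by_cases hn : n ∈ K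
    · have h2 : (K.filter fun j => n ≤ j) = insert n (K.filter fun j => n + 1 ≤ j) := by
        ext j
        simp only [Finset.mem_filter, Finset.mem_insert]
        constructor
        · rintro ⟨h3, h4⟩
          rcases h4.eq_or_lt with h5 | h5
          · exact Or.inl h5.symm
          · exact Or.inr ⟨h3, h5⟩
        · rintro (h3 | ⟨h3, h4⟩)
          · subst h3
            exact ⟨hn, le_rfl⟩
          · exact ⟨h3, by omega⟩
      rw [h2, Finset.card_insert_of_notMem (by simp)]
      simp only [hn, decide_true, if_true]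
      exact Nat.add_le_add_right h1 1
    · have h2 : (K.filter fun j => n + 1 ≤ j) ⊆ (K.filter fun j => n ≤ j) := by
        intro j hj
        rw [Finset.mem_filter] at hj ⊢
        exact ⟨hj.1, by omega⟩
      simp only [hn, decide_false, Bool.false_eq_true, if_false, add_zero]
      exact h1.trans (Finset.card_le_card h2)

theorem countP_mk (K : Finset ℕ) (l : List Bool) :
    (mk K l).countP (fun p => p.2) ≤ K.card :=
  (countP_zipIdx_le K l 0).trans (Finset.card_filter_le _ _)

/-- the letters of the marked word -/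
theorem wd_mk_get {v : Bool → List α} {V : ℕ} (hV : 1 ≤ V) (hv : ∀ b, (v b).length = V)
    (K : Finset ℕ) (l : List Bool) (p : ℕ) :
    (wd v (mk K l))[p]? = (((l.map v).flatten)[p]?).map fun a => (a, decide (p / V ∈ K)) := by
  have h1 : ((wd v (mk K l)).map Prod.fst)[p]? = ((l.map v).flatten)[p]? := by
    rw [wd_map_fst, mk_fst]
  rw [List.getElem?_map] at h1
  rw [← h1, Option.map_map]
  cases hz : (wd v (mk K l))[p]? with
  | none => rfl
  | some z =>
    have h2 := wd_get hV hv (mk K l) p z hz
    rw [mk_get] at h2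
    obtain ⟨a, _, ha⟩ := Option.map_eq_some_iff.1 h2
    show some z = some (z.1, decide (p / V ∈ K))
    rw [ha]

theorem wd_mk_length (v : Bool → List α) (K : Finset ℕ) (l : List Bool) :
    (wd v (mk K l)).length = ((l.map v).flatten).length := by
  have h : ((wd v (mk K l)).map Prod.fst).length = ((l.map v).flatten).length := by
    rw [wd_map_fst, mk_fst]
  rwa [List.length_map] at h

/-- more marks -/
theorem esc_mono {v : Bool → List α} {V : ℕ} (hV : 1 ≤ V) (hv : ∀ b, (v b).length = V)
    (T : Table (Q × ℕ) α) {K K' : Finset ℕ} (hK : K ⊆ K') (l : List Bool) {x y : Q × ℕ} {i : ℕ}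
    {s : Bool} (h : Esc (mkT T) (wd v (mk K l)) x i s y) :
    Esc (mkT T) (wd v (mk K' l)) x i s y := by
  induction h with
  | outL q => exact Esc.outL q
  | outR q =>
    rw [wd_mk_length, ← wd_mk_length v K' l]
    exact Esc.outR q
  | step q i c q' m s r h1 h2 h3 _ ih =>
    rw [wd_mk_get hV hv] at h2
    obtain ⟨a, ha, hc⟩ := Option.map_eq_some_iff.1 h2
    refine Esc.step q i (a, decide ((i - 1) / V ∈ K')) q' m s r h1 ?_ ?_ ih
    · rw [wd_mk_get hV hv, ha]
      rfl
    · have h4 : (q', m) ∈ T q (false, some a) ∧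
          ((∃ a', (some c : Option (α × Bool)) = some (a', true)) ∨ q'.2 = q.2) := by
        have h5 := h3
        subst hc
        exact h5
      refine ⟨h4.1, ?_⟩
      rcases h4.2 with ⟨a', ha'⟩ | h5
      · left
        rw [← hc] at ha'
        simp only [Option.some.injEq, Prod.mk.injEq, decide_eq_true_eq] at ha'
        exact ⟨a, by simp only [Option.some.injEq, Prod.mk.injEq, true_and, decide_eq_true_eq]; exact hK ha'.2⟩
      · exact Or.inr h5

/-- marking the blocks in which the stage grows -/
theorem esc_mark {v : Bool → List α} {V : ℕ} (hV : 1 ≤ V) (hv : ∀ b, (v b).length = V)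
    {T : Table (Q × ℕ) α} (hT : Graded T) (l : List Bool) {x y : Q × ℕ} {i : ℕ} {s : Bool}
    (h : Esc T ((l.map v).flatten) x i s y) :
    ∃ K : Finset ℕ, x.2 ≤ y.2 ∧ K.card ≤ y.2 - x.2 ∧
      Esc (mkT T) (wd v (mk K l)) x i s y := by
  induction h with
  | outL q => exact ⟨∅, le_rfl, by simp, Esc.outL q⟩
  | outR q =>
    refine ⟨∅, le_rfl, by simp, ?_⟩
    rw [← wd_mk_length v ∅ l]
    exact Esc.outR q
  | step q i c q' m s r h1 h2 h3 _ ih =>
    obtain ⟨K, k1, k2, k3⟩ := ih
    have hg := hT q (false, some c) (q', m) h3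
    simp only at hg
    rcases hg with hg | hg
    · refine ⟨K, by omega, by omega, Esc.step q i (c, decide ((i - 1) / V ∈ K)) q' m s r h1 ?_ ?_ k3⟩
      · rw [wd_mk_get hV hv, h2]
        rfl
      · exact ⟨h3, Or.inr hg⟩
    · refine ⟨insert ((i - 1) / V) K, by omega, ?_,
        Esc.step q i (c, decide ((i - 1) / V ∈ insert ((i - 1) / V) K)) q' m s r h1 ?_ ?_
          (esc_mono hV hv T (Finset.subset_insert _ _) l k3)⟩
      · have := Finset.card_insert_le ((i - 1) / V) K
        omega
      · rw [wd_mk_get hV hv, h2]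
        rfl
      · refine ⟨h3, Or.inl ⟨c, ?_⟩⟩
        simp

/-- forgetting the marks -/
theorem esc_forget (T : Table (Q × ℕ) α) (w : List (α × Bool)) {x y : Q × ℕ} {i : ℕ} {s : Bool}
    (h : Esc (mkT T) w x i s y) : Esc T (w.map Prod.fst) x i s y := by
  induction h with
  | outL q => exact Esc.outL q
  | outR q =>
    have h := Esc.outR (τ := T) (y := w.map Prod.fst) q
    rwa [List.length_map] at h
  | step q i c q' m s r h1 h2 h3 _ ih =>
    refine Esc.step q i c.1 q' m s r h1 ?_ h3.1 ih
    rw [List.getElem?_map, h2]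
    rfl

end GB1

theorem t_GB1 : S_GB1 := by
  intro Q α v hV hv T hT
  have hv' : ∀ b, (v b).length = (v true).length := by
    intro b
    cases b
    · exact hv
    · rfl
  refine ⟨fun l e s x y h => ?_, fun μ e s x y h => ?_⟩
  · obtain ⟨K, k1, k2, k3⟩ := esc_mark hV hv' hT l h
    refine ⟨mk K l, mk_fst K l, k1, (countP_mk K l).trans k2, ?_⟩
    unfold Beh
    rw [wd_mk_length]
    exact k3
  · have h1 := esc_forget T (wd v μ) h
    unfold Beh
    rw [← wd_map_fst, List.length_map]
    exact h1

end Pool.Agent.TH431.RB
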