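import Pool.Agent.TH431.RB.Stmts

set_option autoImplicit false

/-! # RB-GB2: the behaviour of a marked word depends on its pattern only (job 4883) -/

namespace Pool.Agent.TH431.RB

open Pool.Agent.H867R4
open Pool.Agent.H541R2 (gsign theLang mu)

namespace GB2

variable {Q α : Type}

/-- the table with the stage fixed -/
def tau (T : Table (Q × ℕ) α) (i : ℕ) : Table Q α := fun q c => {z | ((z.1, i), z.2) ∈ T (q, i) c}

theorem esc_to (T : Table (Q × ℕ) α) (y : List α) {x : Q × ℕ} {p : ℕ} {s : Bool} {z : Q × ℕ}
    (h : Esc (mkT T) (y.map (fun a => (a, false))) x p s z) :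
    z.2 = x.2 ∧ Esc (tau T x.2) y x.1 p s z.1 := by
  induction h with
  | outL q => exact ⟨rfl, Esc.outL _⟩
  | outR q =>
    rw [List.length_map]
    exact ⟨rfl, Esc.outR _⟩
  | step q i c q' m s r h1 h2 h3 h4 ih =>
    rw [List.getElem?_map, Option.map_eq_some_iff] at h2
    obtain ⟨a, ha, rfl⟩ := h2
    obtain ⟨h5, h6⟩ := h3
    have h7 : q'.2 = q.2 := by
      rcases h6 with ⟨a', h6⟩ | h6
      · simp at h6
      · exact h6
    obtain ⟨h8, h9⟩ := ih
    refine ⟨h8.trans h7, Esc.step q.1 i a q'.1 m s r.1 h1 ha ?_ ?_⟩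
    · change ((q'.1, q.2), m) ∈ T (q.1, q.2) (false, some a)
      rw [← h7]
      have h10 : (q', m) ∈ T q (false, some a) := h5
      rw [h7]
      have e1 : (q'.1, q.2) = q' := by rw [← h7]
      rw [e1]
      exact h10
    · rw [← h7]
      exact h9

theorem esc_of (T : Table (Q × ℕ) α) (y : List α) (i : ℕ) {q : Q} {p : ℕ} {s : Bool} {r : Q}
    (h : Esc (tau T i) y q p s r) :
    Esc (mkT T) (y.map (fun a => (a, false))) (q, i) p s (r, i) := by
  induction h with
  | outL q => exact Esc.outL _
  | outR q =>
    have := Esc.outR (τ := mkT T) (y := y.map (fun a => (a, false))) (q, i)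
    rw [List.length_map] at this
    exact this
  | step q p c q' m s r h1 h2 h3 h4 ih =>
    refine Esc.step (q, i) p (c, false) (q', i) m s (r, i) h1 ?_ ?_ ih
    · rw [List.getElem?_map, h2]
      rfl
    · exact ⟨h3, Or.inr rfl⟩

theorem beh_um (T : Table (Q × ℕ) α) (y : List α) (e s : Bool) (x z : Q × ℕ) :
    Beh (y.map (fun a => (a, false))) (mkT T) e x s z ↔ z.2 = x.2 ∧ Beh y (tau T x.2) e x.1 s z.1 := by
  unfold Beh
  rw [List.length_map]
  constructor
  · intro h
    exact esc_to T y h
  · rintro ⟨h1, h2⟩
    have h3 := esc_of T y x.2 h2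
    have e1 : (z.1, x.2) = z := by rw [← h1]
    rw [e1] at h3
    exact h3

theorem beh_um_congr (T : Table (Q × ℕ) α) {y z : List α}
    (h : (Beh y : Table Q α → _) = Beh z) :
    Beh (y.map (fun a => (a, false))) (mkT T) = Beh (z.map (fun a => (a, false))) (mkT T) := by
  funext e x s r
  rw [eq_iff_iff, beh_um, beh_um, h]

theorem congr_app {P β : Type} {τ : Table P β} {y₁ y₂ z₁ z₂ : List β} (hy₁ : y₁ ≠ []) (hz₁ : z₁ ≠ [])
    (h2 : y₂ = [] ↔ z₂ = []) (h₁ : Beh y₁ τ = Beh z₁ τ) (h₂ : Beh y₂ τ = Beh z₂ τ) :
    Beh (y₁ ++ y₂) τ = Beh (z₁ ++ z₂) τ := by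
  by_cases h : y₂ = []
  · have h' := h2.1 h
    subst h h'
    rw [List.append_nil, List.append_nil]
    exact h₁
  · have h' : z₂ ≠ [] := fun hz => h (h2.2 hz)
    funext e q s r
    rw [eq_iff_iff, beh_append (List.length_pos_of_ne_nil hy₁) (List.length_pos_of_ne_nil h),
      beh_append (List.length_pos_of_ne_nil hz₁) (List.length_pos_of_ne_nil h'), h₁, h₂]

/-- normal form of a pattern -/
def nf : List (Option Bool) → List (Bool × Bool)
  | [] => []
  | none :: r => (true, false) :: nf r
  | some c :: r => (c, true) :: nf r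

theorem nf_nil (r : List (Option Bool)) : nf r = [] ↔ r = [] := by
  cases r with
  | nil => simp [nf]
  | cons a r => cases a <;> simp [nf]

theorem col_nil (μ : List (Bool × Bool)) : col μ = [] ↔ μ = [] := by
  cases μ with
  | nil => simp [col]
  | cons p μ =>
    obtain ⟨c, m⟩ := p
    cases m with
    | true => simp [col]
    | false =>
      simp only [col, reduceCtorEq, iff_false]
      split <;> simp

theorem wd_cons (v : Bool → List α) (p : Bool × Bool) (μ : List (Bool × Bool)) :
    wd v (p :: μ) = (v p.1).map (fun a => (a, p.2)) ++ wd v μ := by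
  unfold wd
  rw [List.map_cons, List.flatten_cons]

theorem wd_nil (v : Bool → List α) (hv : ∀ b, v b ≠ []) (μ : List (Bool × Bool)) :
    wd v μ = [] ↔ μ = [] := by
  cases μ with
  | nil => simp [wd]
  | cons p μ =>
    rw [wd_cons]
    simp [hv]

end GB2

open GB2 in
theorem t_GB2 : S_GB2 := by
  intro Q α v hv1 hv2 hv3 hv4 T μ μ' hμ
  have hv : ∀ b, v b ≠ [] := by
    intro b h0
    cases b with
    | true => rw [h0] at hv1; simp at hv1
    | false => rw [h0] at hv2; rw [← hv2] at hv1; simp at hv1
  have hB : ∀ c : Bool, Beh ((v c).map (fun a => (a, false))) (mkT T) =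
      Beh ((v true).map (fun a => (a, false))) (mkT T) := by
    intro c
    cases c with
    | true => rfl
    | false => exact beh_um_congr T hv3
  have hBB : Beh ((v true).map (fun a => (a, false)) ++ (v true).map (fun a => (a, false))) (mkT T) =
      Beh ((v true).map (fun a => (a, false))) (mkT T) := by
    rw [← List.map_append]
    exact beh_um_congr T hv4
  have hmap : ∀ (b m : Bool), (v b).map (fun a => (a, m)) ≠ [] := by
    intro b m h0
    exact hv b (List.map_eq_nil_iff.1 h0)
  have hwn : ∀ ν : List (Bool × Bool), wd v ν = [] ↔ wd v (nf (col ν)) = [] := by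
    intro ν
    rw [wd_nil v hv, wd_nil v hv, nf_nil, col_nil]
  have key : ∀ ν : List (Bool × Bool), Beh (wd v ν) (mkT T) = Beh (wd v (nf (col ν))) (mkT T) := by
    intro ν
    induction ν with
    | nil => rfl
    | cons p ν ih =>
      obtain ⟨c, m⟩ := p
      cases m with
      | true =>
        have e1 : nf (col ((c, true) :: ν)) = (c, true) :: nf (col ν) := rfl
        rw [e1, wd_cons, wd_cons]
        exact congr_app (hmap _ _) (hmap _ _) (hwn ν) rfl ih
      | false =>
        have hstep : Beh (wd v ((c, false) :: ν)) (mkT T) =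
            Beh ((v true).map (fun a => (a, false)) ++ wd v (nf (col ν))) (mkT T) := by
          rw [wd_cons]
          exact congr_app (hmap _ _) (hmap _ _) (hwn ν) (hB c) ih
        rw [hstep]
        rcases hr : col ν with _ | ⟨_ | d, r⟩
        · have e1 : col ((c, false) :: ν) = [none] := by
            simp only [col, hr]
          rw [e1]
          simp only [nf, wd_cons]
        · have e1 : col ((c, false) :: ν) = none :: r := by
            simp only [col, hr]
          rw [e1]
          simp only [nf, wd_cons]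
          rw [← List.append_assoc]
          refine congr_app ?_ (hmap _ _) Iff.rfl hBB rfl
          intro h0
          exact hmap _ _ (List.append_eq_nil_iff.1 h0).1
        · have e1 : col ((c, false) :: ν) = none :: some d :: r := by
            simp only [col, hr]
          rw [e1]
          simp only [nf, wd_cons]
  rw [key μ, key μ', hμ]

end Pool.Agent.TH431.RB
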