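import Pool.Agent.TH431.RB.Stmts

/-!
# RB-IDEM, RB-HAT
-/

set_option autoImplicit false

namespace Pool.Agent.TH431.RB

open Pool.Agent.H867R4
open Pool.Agent.H541R2 (gsign theLang mu)

/-! ### idempotent powers -/

theorem exists_idem' {Q α : Type} [Finite Q] [Finite α] (t : List α) (ht : 1 ≤ t.length) :
    ∃ j : ℕ, (Beh (rep (j + 1) t ++ rep (j + 1) t) : Table Q α → _) = Beh (rep (j + 1) t) := by
  classical
  have : Finite (Table Q α) := by unfold Table; infer_instance
  obtain ⟨i, i', hne, hf⟩ := Finite.exists_ne_map_eq_of_infinite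
    (fun m : ℕ => (Beh (rep (m + 1) t) : Table Q α → Bool → Q → Bool → Q → Prop))
  wlog hlt : i < i' generalizing i i'
  · exact this i' i hne.symm hf.symm (by omega)
  obtain ⟨p, hp, rfl⟩ : ∃ p, 1 ≤ p ∧ i' = i + p := ⟨i' - i, by omega, by omega⟩
  have hlen : ∀ m, 1 ≤ (rep (m + 1) t).length := by
    intro m; rw [rep_length]; nlinarith
  have hshift : ∀ d, (Beh (rep (i + 1 + d) t) : Table Q α → _) = Beh (rep (i + 1 + d + p) t) := by
    intro d
    cases d with
    | zero => simpa [show i + p + 1 = i + 1 + 0 + p by omega] using hf
    | succ d =>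
      have h1 : rep (i + 1 + (d + 1)) t = rep (i + 1) t ++ rep (d + 1) t := rep_add _ _ _
      have h2 : rep (i + 1 + (d + 1) + p) t = rep (i + p + 1) t ++ rep (d + 1) t := by
        rw [← rep_add]; congr 1; omega
      rw [h1, h2]
      exact beh_congr (hlen i) (hlen d) (hlen (i + p)) (hlen d) hf rfl
  have hmult : ∀ c d, (Beh (rep (i + 1 + d) t) : Table Q α → _) =
      Beh (rep (i + 1 + d + c * p) t) := by
    intro c
    induction c with
    | zero => intro d; simp
    | succ c ih =>
      intro d
      have h3 := hshift (d + c * p)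
      have h4 : i + 1 + (d + c * p) = i + 1 + d + c * p := by ring
      have h5 : i + 1 + d + c * p + p = i + 1 + d + (c + 1) * p := by ring
      rw [h4, h5] at h3
      rw [ih d, h3]
  have hj : ∃ j, j + 1 = (i + 1) * p := ⟨(i + 1) * p - 1, by
    have : 1 ≤ (i + 1) * p := Nat.one_le_iff_ne_zero.mpr (by positivity)
    omega⟩
  obtain ⟨j, hj⟩ := hj
  refine ⟨j, ?_⟩
  rw [← rep_add]
  have hge : i + 1 ≤ j + 1 := by rw [hj]; nlinarith
  obtain ⟨d, hd⟩ := Nat.exists_eq_add_of_le hge
  have h6 := hmult (i + 1) d
  have h7 : i + 1 + d + (i + 1) * p = j + 1 + (j + 1) := by rw [← hd, ← hj]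
  rw [h7, ← hd] at h6
  exact h6.symm

theorem zone_append {Q : Type} (C : Code Q) (l l' : List Bool) :
    C.zone (l ++ l') = C.zone l ++ C.zone l' := by
  simp [Code.zone]

theorem zone_replicate {Q : Type} (C : Code Q) (m : ℕ) :
    C.zone (List.replicate m true) = rep m (C.v true) := by
  simp [Code.zone, rep]

theorem blk_length {k : ℕ} (hk : 1 ≤ k) (x : Bool) : (blk k x).length = k := by
  simp [blk]; omega

theorem t_IDEM : S_IDEM := by
  intro Q _ C
  obtain ⟨j, hj⟩ := exists_idem' (Q := Q) (C.v true) (by rw [C.v_length]; omega)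
  refine ⟨j + 1, by omega, ?_⟩
  have hl : (blk (j + 1) true).length = j + 1 := blk_length (by omega) true
  have h1 : (Beh (C.zone (blk (j + 1) true)) : Table Q (Fin 4) → _) =
      Beh (rep (j + 1) (C.v true)) := by
    rw [← zone_replicate]
    exact C.beh_zone _ _ (by rw [hl, List.length_replicate])
  have h2 : (Beh (C.zone (blk (j + 1) true) ++ C.zone (blk (j + 1) true)) :
      Table Q (Fin 4) → _) = Beh (rep (j + 1) (C.v true) ++ rep (j + 1) (C.v true)) := by
    rw [← zone_replicate, ← zone_append, ← zone_append]
    exact C.beh_zone _ _ (by simp [hl])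
  rw [h1, h2, hj]

/-! ### the matrices -/

theorem ex_cons (k : ℕ) (x : Bool) (l : List Bool) : ex k (x :: l) = blk k x ++ ex k l := by
  simp [ex]

theorem ex_length {k : ℕ} (hk : 1 ≤ k) (l : List Bool) : (ex k l).length = l.length * k := by
  induction l with
  | nil => simp [ex]
  | cons x l ih =>
    rw [ex_cons, List.length_append, ih, blk_length hk, List.length_cons]
    ring

theorem t_HAT1 : S_HAT1 := by
  intro k P P' g N b i hk
  have hlen : (ex k (P ++ List.ofFn (b i) ++ P')).length = (P.length + N + P'.length) * k := by
    rw [ex_length hk, List.length_append, List.length_append, List.length_ofFn]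
  apply List.ext_getElem
  · rw [List.length_ofFn, hlen]
  · intro m hm1 hm2
    rw [List.getElem_ofFn]
    simp only [hat]
    rw [List.getD_eq_getElem _ _ hm2]

theorem ex_getD {k : ℕ} (hk : 1 ≤ k) (l : List Bool) : ∀ q s : ℕ, s < k →
    (ex k l).getD (q * k + s) false = if s = 0 then l.getD q false else false := by
  induction l with
  | nil => intro q s _; simp [ex]
  | cons x l ih =>
    intro q s hs
    rw [ex_cons]
    cases q with
    | zero =>
      rw [Nat.zero_mul, Nat.zero_add, List.getD_append _ _ _ _ (by rw [blk_length hk]; exact hs)]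
      cases s with
      | zero => simp [blk]
      | succ s =>
        simp only [blk, List.getD_cons_succ, Nat.add_eq_zero_iff, one_ne_zero, and_false, if_false]
        by_cases h : s < k - 1
        · rw [List.getD_eq_getElem _ _ (by simpa using h)]; simp
        · rw [List.getD_eq_default _ _ (by simpa using h)]
    | succ q =>
      have e : (q + 1) * k + s - k = q * k + s := by
        rw [Nat.succ_mul]; omega
      rw [List.getD_append_right _ _ _ _ (by rw [blk_length hk, Nat.succ_mul]; omega),
        blk_length hk, e, ih q s hs, List.getD_cons_succ]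

/-- the factor of a column -/
noncomputable def cf {g : ℕ} (u : Fin g → Bool) : ℝ := if ∀ i, u i = true then (-1 : ℝ) else 1

theorem gsign_eq {g N : ℕ} (b : Fin g → Fin N → Bool) :
    gsign Finset.univ b = ∏ j : Fin N, cf (fun i => b i j) := rfl

theorem prod_range_mul' (f : ℕ → ℝ) (k : ℕ) : ∀ M : ℕ,
    ∏ j ∈ Finset.range (M * k), f j =
      ∏ q ∈ Finset.range M, ∏ s ∈ Finset.range k, f (q * k + s) := by
  intro M
  induction M with
  | zero => simp
  | succ M ih =>
    rw [Nat.succ_mul, Finset.prod_range_add, ih, Finset.prod_range_succ]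

theorem t_HAT2 : S_HAT2 := by
  intro k P P' g N hk
  refine ⟨(∏ q ∈ Finset.range P.length, cf (fun _ : Fin (g + 1) => P.getD q false)) *
    ∏ q ∈ Finset.range P'.length, cf (fun _ : Fin (g + 1) => P'.getD q false), ?_, ?_⟩
  · have h1 : ∀ (s : Finset ℕ) (F : ℕ → Fin (g + 1) → Bool),
        (∏ q ∈ s, cf (F q) = 1 ∨ ∏ q ∈ s, cf (F q) = -1) := by
      intro s F
      induction s using Finset.induction_on with
      | empty => left; simp
      | insert a s ha ih =>
        rw [Finset.prod_insert ha]
        unfold cf at *
        split_ifs <;> rcases ih with h | h <;> rw [h] <;> norm_num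
    rcases h1 (Finset.range P.length) (fun q _ => P.getD q false) with h | h <;>
      rcases h1 (Finset.range P'.length) (fun q _ => P'.getD q false) with h' | h' <;>
      rw [h, h'] <;> norm_num
  · intro b
    have hR : ∀ (i : Fin (g + 1)) (q s : ℕ), s < k →
        (ex k (P ++ List.ofFn (b i) ++ P')).getD (q * k + s) false =
          if s = 0 then (P ++ List.ofFn (b i) ++ P').getD q false else false :=
      fun i q s hs => ex_getD hk _ q s hs
    have h1 : gsign Finset.univ (hat k P P' b) =
        ∏ j ∈ Finset.range ((P.length + N + P'.length) * k),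
          cf (fun i => (ex k (P ++ List.ofFn (b i) ++ P')).getD j false) := by
      rw [gsign_eq, Finset.prod_range]
      rfl
    have h2 : ∀ q : ℕ, ∏ s ∈ Finset.range k,
        cf (fun i => (ex k (P ++ List.ofFn (b i) ++ P')).getD (q * k + s) false) =
          cf (fun i => (P ++ List.ofFn (b i) ++ P').getD q false) := by
      intro q
      rw [Finset.prod_eq_single_of_mem 0 (Finset.mem_range.2 hk)]
      · congr 1
        funext i
        rw [hR i q 0 hk, if_pos rfl]
      · intro s hs hs0
        have e : (fun i => (ex k (P ++ List.ofFn (b i) ++ P')).getD (q * k + s) false) =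
            fun _ : Fin (g + 1) => false := by
          funext i
          rw [hR i q s (Finset.mem_range.1 hs), if_neg hs0]
        rw [e]
        simp [cf]
    rw [h1, prod_range_mul', Finset.prod_congr rfl fun q _ => h2 q, Finset.prod_range_add,
      Finset.prod_range_add]
    have h3 : ∀ q ∈ Finset.range P.length,
        cf (fun i => (P ++ List.ofFn (b i) ++ P').getD q false) =
          cf (fun _ : Fin (g + 1) => P.getD q false) := by
      intro q hq
      have hq' := Finset.mem_range.1 hq
      congr 1
      funext i
      rw [List.getD_append _ _ _ _ (by rw [List.length_append]; omega),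
        List.getD_append _ _ _ _ hq']
    have h4 : ∏ x ∈ Finset.range N,
        cf (fun i => (P ++ List.ofFn (b i) ++ P').getD (P.length + x) false) =
          gsign Finset.univ b := by
      rw [gsign_eq, Finset.prod_range]
      refine Finset.prod_congr rfl fun j _ => ?_
      congr 1
      funext i
      rw [List.getD_append _ _ _ _ (by rw [List.length_append, List.length_ofFn]; omega),
        List.getD_append_right _ _ _ _ (by omega), Nat.add_sub_cancel_left,
        List.getD_eq_getElem _ _ (by rw [List.length_ofFn]; exact j.isLt), List.getElem_ofFn]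
    have h5 : ∏ x ∈ Finset.range P'.length,
        cf (fun i => (P ++ List.ofFn (b i) ++ P').getD (P.length + N + x) false) =
          ∏ q ∈ Finset.range P'.length, cf (fun _ : Fin (g + 1) => P'.getD q false) := by
      refine Finset.prod_congr rfl fun q _ => ?_
      congr 1
      funext i
      rw [List.getD_append_right _ _ _ _ (by rw [List.length_append, List.length_ofFn]; omega),
        List.length_append, List.length_ofFn, Nat.add_sub_cancel_left]
    rw [Finset.prod_congr rfl h3, h4, h5]
    ring

end Pool.Agent.TH431.RB
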