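import Pool.Agent.TH431.RB.Stmts

/-!
# Universal paddings
-/

set_option autoImplicit false

namespace Pool.Agent.TH431.RB

namespace PAD

/-- put `none` in front, unless it is there -/
def nc : List (Option Bool) → List (Option Bool)
  | none :: r => none :: r
  | r => none :: r

theorem nc_none (r : List (Option Bool)) : nc (none :: r) = none :: r := rfl

theorem nc_ns {l : List (Option Bool)} (h : ∀ r, l ≠ none :: r) : nc l = none :: l := by
  match l, h with
  | [], _ => rfl
  | some x :: r, _ => rfl
  | none :: r, h => exact absurd rfl (h r)

theorem nc_nc (l : List (Option Bool)) : nc (nc l) = nc l := by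
  match l with
  | [] => rfl
  | some x :: r => rfl
  | none :: r => rfl

theorem nc_append {l : List (Option Bool)} (h : l ≠ []) (r : List (Option Bool)) :
    nc (l ++ r) = nc l ++ r := by
  match l, h with
  | [], h => exact absurd rfl h
  | some x :: l', _ => rfl
  | none :: l', _ => rfl

theorem col_true (c : Bool) (l : List (Bool × Bool)) :
    col ((c, true) :: l) = some c :: col l := rfl

theorem col_false (c : Bool) (l : List (Bool × Bool)) : col ((c, false) :: l) = nc (col l) := by
  conv_lhs => rw [col]
  cases h : col l with
  | nil => rfl
  | cons a r => cases a <;> rfl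

/-- unmarked letters -/
def un (A : List Bool) : List (Bool × Bool) := A.map (fun x => (x, false))

/-- marked letters -/
def ma (A : List Bool) : List (Bool × Bool) := A.map (fun x => (x, true))

theorem un_fst (A : List Bool) : (un A).map Prod.fst = A := by
  unfold un
  rw [List.map_map]
  exact List.map_id _

theorem ma_fst (A : List Bool) : (ma A).map Prod.fst = A := by
  unfold ma
  rw [List.map_map]
  exact List.map_id _

theorem col_un {A : List Bool} (h : A ≠ []) (l : List (Bool × Bool)) :
    col (un A ++ l) = nc (col l) := by
  induction A with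
  | nil => exact absurd rfl h
  | cons a A ih =>
    change col ((a, false) :: (un A ++ l)) = _
    rw [col_false]
    by_cases hA : A = []
    · subst hA
      rfl
    · rw [ih hA, nc_nc]

theorem col_un_none (A : List Bool) {l : List (Bool × Bool)} {r : List (Option Bool)}
    (h : col l = none :: r) : col (un A ++ l) = none :: r := by
  by_cases hA : A = []
  · subst hA
    exact h
  · rw [col_un hA, h, nc_none]

theorem col_ma (A : List Bool) (l : List (Bool × Bool)) :
    col (ma A ++ l) = A.map some ++ col l := by
  induction A with
  | nil => rfl
  | cons a A ih =>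
    change col ((a, true) :: (ma A ++ l)) = _
    rw [col_true, ih]
    rfl

theorem col_ne {l : List (Bool × Bool)} (h : l ≠ []) : col l ≠ [] := by
  match l, h with
  | [], h => exact absurd rfl h
  | (c, true) :: l, _ => rw [col_true]; simp
  | (c, false) :: l, _ =>
    rw [col_false]
    cases h : col l with
    | nil => simp [nc]
    | cons a r => cases a <;> simp [nc]

theorem col_append (l₁ : List (Bool × Bool)) {l₂ : List (Bool × Bool)}
    (h : ∀ r, col l₂ ≠ none :: r) : col (l₁ ++ l₂) = col l₁ ++ col l₂ := by
  induction l₁ with
  | nil => rfl
  | cons a l₁ ih =>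
    obtain ⟨c, b⟩ := a
    cases b with
    | true =>
      rw [List.cons_append, col_true, col_true, ih]
      rfl
    | false =>
      rw [List.cons_append, col_false, col_false, ih]
      by_cases hl : l₁ = []
      · subst hl
        change nc (col l₂) = nc [] ++ col l₂
        rw [nc_ns h]
        rfl
      · rw [nc_append (col_ne hl)]

theorem ma_ns (A : List Bool) (r : List (Option Bool)) : col (ma A) ≠ none :: r := by
  have h : col (ma A) = A.map some := by
    have := col_ma A []
    rwa [List.append_nil, show col [] = [] from rfl, List.append_nil] at this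
  rw [h]
  cases A with
  | nil => simp
  | cons a A => simp

theorem col_append_ma (l : List (Bool × Bool)) (A : List Bool) :
    col (l ++ ma A) = col l ++ A.map some := by
  rw [col_append l (ma_ns A)]
  have := col_ma A []
  rw [List.append_nil, show col [] = [] from rfl, List.append_nil] at this
  rw [this]

/-- patterns which start and end with `none`, with `m` marked letters -/
inductive Good : ℕ → List (Option Bool) → Prop
  | one : Good 0 [none]
  | cons {m : ℕ} {q : List (Option Bool)} (w : List Bool) (hw : w ≠ []) (h : Good m q) :
      Good (w.length + m) (none :: (w.map some ++ q))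

theorem Good.start {m : ℕ} {q : List (Option Bool)} (h : Good m q) : ∃ r, q = none :: r := by
  cases h with
  | one => exact ⟨_, rfl⟩
  | cons w hw h => exact ⟨_, rfl⟩

/-- the pattern of a marking which ends with an unmarked letter -/
theorem lemA (ν : List (Bool × Bool)) (c : Bool) : ∃ (w : List Bool) (q : List (Option Bool))
    (m : ℕ), col (ν ++ [(c, false)]) = w.map some ++ q ∧ Good m q ∧
      w.length + m = ν.countP (fun p => p.2) ∧ w <+: (ν.map Prod.fst ++ [c]) := by
  induction ν with
  | nil => exact ⟨[], [none], 0, rfl, Good.one, rfl, List.nil_prefix⟩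
  | cons a ν ih =>
    obtain ⟨w, q, m, h1, h2, h3, h4⟩ := ih
    obtain ⟨x, b⟩ := a
    cases b with
    | true =>
      refine ⟨x :: w, q, m, ?_, h2, ?_, ?_⟩
      · rw [List.cons_append, col_true, h1]
        rfl
      · rw [List.length_cons, List.countP_cons_of_pos (by simp), ← h3]
        omega
      · rw [List.map_cons, List.cons_append]
        exact List.cons_prefix_cons.2 ⟨rfl, h4⟩
    | false =>
      rw [List.cons_append, col_false, h1, List.countP_cons_of_neg (by simp)]
      obtain ⟨r, hr⟩ := h2.start
      cases w with
      | nil =>
        refine ⟨[], q, m, ?_, h2, h3, List.nil_prefix⟩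
        change nc q = q
        rw [hr, nc_none]
      | cons y w =>
        refine ⟨[], none :: ((y :: w).map some ++ q), (y :: w).length + m, rfl,
          Good.cons _ (by simp) h2, ?_, List.nil_prefix⟩
        rw [← h3]
        simp

/-- the last unmarked letter -/
theorem lemB (μ : List (Bool × Bool)) (h : μ.countP (fun p => p.2) < μ.length) :
    ∃ (ν : List (Bool × Bool)) (c : Bool) (A : List Bool), μ = ν ++ [(c, false)] ++ ma A := by
  induction μ with
  | nil => simp at h
  | cons a μ ih =>
    by_cases h1 : μ.countP (fun p => p.2) < μ.length
    · obtain ⟨ν, c, A, rfl⟩ := ih h1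
      exact ⟨a :: ν, c, A, rfl⟩
    · have h2 : μ.countP (fun p => p.2) = μ.length :=
        le_antisymm List.countP_le_length (not_lt.1 h1)
      obtain ⟨x, b⟩ := a
      cases b with
      | true =>
        rw [List.countP_cons_of_pos (by simp), List.length_cons, h2] at h
        exact absurd h (lt_irrefl _)
      | false =>
        refine ⟨[], x, μ.map Prod.fst, ?_⟩
        have h3 : ma (μ.map Prod.fst) = μ := by
          unfold ma
          rw [List.map_map]
          refine (List.map_congr_left (g := id) ?_).trans (List.map_id _)
          intro p hp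
          have := List.countP_eq_length.1 h2 p hp
          obtain ⟨y, z⟩ := p
          simp only at this
          subst this
          rfl
        rw [h3]
        rfl

/-- all words of length `d` -/
def wds : ℕ → List (List Bool)
  | 0 => [[]]
  | (d + 1) => (wds d).map (fun w => false :: w) ++ (wds d).map (fun w => true :: w)

theorem mem_wds (w : List Bool) : w ∈ wds w.length := by
  induction w with
  | nil => simp [wds]
  | cons a w ih =>
    cases a
    · simp only [List.length_cons, wds, List.mem_append, List.mem_map]
      exact Or.inl ⟨w, ih, rfl⟩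
    · simp only [List.length_cons, wds, List.mem_append, List.mem_map]
      exact Or.inr ⟨w, ih, rfl⟩

theorem len_wds (d : ℕ) : (wds d).length = 2 ^ d := by
  induction d with
  | zero => rfl
  | succ d ih => rw [wds, List.length_append, List.length_map, List.length_map, ih, pow_succ]; ring

theorem len_mem_wds (d : ℕ) : ∀ w ∈ wds d, w.length = d := by
  induction d with
  | zero => intro w hw; simp [wds] at hw; simp [hw]
  | succ d ih =>
    intro w hw
    simp only [wds, List.mem_append, List.mem_map] at hw
    rcases hw with ⟨v, hv, rfl⟩ | ⟨v, hv, rfl⟩ <;> simp [ih v hv]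

theorem len_flat (d : ℕ) : (wds d).flatten.length = 2 ^ d * d := by
  rw [List.length_flatten, List.map_congr_left (g := fun _ => d) (len_mem_wds d),
    List.map_const', List.sum_replicate, len_wds, smul_eq_mul]

/-- the universal word -/
def uni : ℕ → List Bool
  | 0 => [false]
  | (d + 1) => ([false] ++ (wds (d + 1)).flatten) ++ uni d

theorem len_uni (d : ℕ) : (uni d).length ≤ 4 ^ (d + 1) := by
  induction d with
  | zero => simp [uni]
  | succ d ih =>
    rw [uni, List.length_append, List.length_append, len_flat]
    have h1 : d + 1 ≤ 2 ^ d := Nat.lt_two_pow_self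
    have h2 : 2 ^ (d + 1) * (d + 1) ≤ 2 ^ (d + 1) * 2 ^ d := Nat.mul_le_mul_left _ h1
    have h3 : (2 : ℕ) ^ (d + 1) * 2 ^ d = 2 * 4 ^ d := by
      rw [show (4 : ℕ) = 2 * 2 from rfl, mul_pow]; ring
    have h4 : (4 : ℕ) ^ (d + 1) = 4 * 4 ^ d := by rw [pow_succ]; ring
    have h5 : (4 : ℕ) ^ (d + 1 + 1) = 16 * 4 ^ d := by rw [pow_succ, pow_succ]; ring
    have h6 : 1 ≤ (4 : ℕ) ^ d := Nat.one_le_pow _ _ (by norm_num)
    simp only [List.length_singleton]
    omega

/-- every word of length at most `d + 1` is an infix of the universal word -/
theorem infix_wds {d : ℕ} {w : List Bool} (h : w.length ≤ d) :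
    ∃ A B, (wds d).flatten = A ++ w ++ B := by
  have h1 : w ++ List.replicate (d - w.length) false ∈ wds d := by
    have := mem_wds (w ++ List.replicate (d - w.length) false)
    rwa [List.length_append, List.length_replicate, Nat.add_sub_cancel' h] at this
  obtain ⟨s, t, hst⟩ := List.append_of_mem h1
  refine ⟨s.flatten, List.replicate (d - w.length) false ++ t.flatten, ?_⟩
  rw [hst, List.flatten_append, List.flatten_cons]
  simp only [List.append_assoc]

theorem realize (d : ℕ) : ∀ (m : ℕ) (q : List (Option Bool)), Good m q → m ≤ d →
    ∀ γ : List Bool, ∃ ρ : List (Bool × Bool), ρ.map Prod.fst = uni d ++ γ ∧ col ρ = q := by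
  induction d with
  | zero =>
    intro m q hq hm γ
    cases hq with
    | one =>
      refine ⟨un (uni 0 ++ γ), un_fst _, ?_⟩
      have := col_un (A := uni 0 ++ γ) (by simp [uni]) []
      rw [List.append_nil] at this
      rw [this]
      rfl
    | cons w hw h =>
      exfalso
      have : 0 < w.length := List.length_pos_iff.2 hw
      omega
  | succ d ih =>
    intro m q hq hm γ
    cases hq with
    | one =>
      refine ⟨un (uni (d + 1) ++ γ), un_fst _, ?_⟩
      have := col_un (A := uni (d + 1) ++ γ) (by simp [uni]) []
      rw [List.append_nil] at this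
      rw [this]
      rfl
    | @cons m' q' w hw h =>
      have hw' : 0 < w.length := List.length_pos_iff.2 hw
      obtain ⟨ρ, h1, h2⟩ := ih m' q' h (by omega) γ
      obtain ⟨A, B, hAB⟩ := infix_wds (d := d + 1) (w := w) (by omega)
      obtain ⟨r, hr⟩ := h.start
      refine ⟨un ([false] ++ A) ++ (ma w ++ (un B ++ ρ)), ?_, ?_⟩
      · rw [List.map_append, List.map_append, List.map_append, un_fst, ma_fst, un_fst, h1, uni, hAB]
        simp only [List.append_assoc]
      · rw [col_un (by simp), col_ma, col_un_none B (h2.trans hr), ← hr]
        refine nc_ns ?_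
        intro r'
        cases w with
        | nil => exact absurd rfl hw
        | cons y w => simp

theorem col_realize (k : ℕ) (d m : ℕ) (q : List (Option Bool)) (hq : Good m q) (hm : m ≤ d)
    (γ : List Bool) : ∃ ρ : List (Bool × Bool),
      ρ.map Prod.fst = List.replicate k false ++ uni d ++ γ ∧ col ρ = q := by
  obtain ⟨ρ, h1, h2⟩ := realize d m q hq hm γ
  obtain ⟨r, hr⟩ := hq.start
  refine ⟨un (List.replicate k false) ++ ρ, ?_, ?_⟩
  · rw [List.map_append, un_fst, h1, List.append_assoc]
  · rw [col_un_none _ (h2.trans hr), hr]

theorem pre_rep {w l : List Bool} {k : ℕ} (h : w <+: (List.replicate k false ++ l))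
    (hk : w.length ≤ k) : w = List.replicate w.length false := by
  have h1 : w <+: List.replicate k false :=
    List.prefix_of_prefix_length_le h (List.prefix_append _ _) (by simpa using hk)
  refine List.eq_replicate_iff.2 ⟨rfl, fun b hb => ?_⟩
  exact List.eq_of_mem_replicate (h1.subset hb)

theorem suf_rep {w l : List Bool} {k : ℕ} (h : w <:+ (l ++ List.replicate k false))
    (hk : w.length ≤ k) : w = List.replicate w.length false := by
  have h1 : w <:+ List.replicate k false :=
    List.suffix_of_suffix_length_le h (List.suffix_append _ _) (by simpa using hk)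
  refine List.eq_replicate_iff.2 ⟨rfl, fun b hb => ?_⟩
  exact List.eq_of_mem_replicate (h1.subset hb)

theorem rel_pad (d : ℕ) (β β' : List Bool) :
    Rel d ((List.replicate (d + 1) false ++ uni d) ++ β ++ List.replicate (d + 1) false)
      ((List.replicate (d + 1) false ++ uni d) ++ β' ++ List.replicate (d + 1) false) := by
  intro μ hμ hd
  have hlen : μ.countP (fun p => p.2) < μ.length := by
    have : μ.length = ((List.replicate (d + 1) false ++ uni d) ++ β ++
        List.replicate (d + 1) false).length := by rw [← hμ, List.length_map]
    rw [this]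
    simp only [List.length_append, List.length_replicate]
    omega
  obtain ⟨ν, c, A, rfl⟩ := lemB μ hlen
  obtain ⟨w, q, m, h1, h2, h3, h4⟩ := lemA ν c
  have hcA : (ma A).countP (fun p => p.2) = A.length := by
    have : (ma A).length = A.length := by simp [ma]
    rw [← this, List.countP_eq_length]
    intro p hp
    simp only [ma, List.mem_map] at hp
    obtain ⟨x, -, rfl⟩ := hp
    rfl
  have hcount : w.length + m + A.length ≤ d := by
    rw [List.countP_append, List.countP_append, hcA] at hd
    have : List.countP (fun p : Bool × Bool => p.2) [(c, false)] = 0 := rfl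
    omega
  -- the letters
  have hw : w = List.replicate w.length false := by
    refine pre_rep (l := uni d ++ β ++ List.replicate (d + 1) false) (k := d + 1) ?_ (by omega)
    have h5 : (ν.map Prod.fst ++ [c]) <+: (List.replicate (d + 1) false ++
        (uni d ++ β ++ List.replicate (d + 1) false)) := by
      refine ⟨A, ?_⟩
      have h6 : (ν ++ [(c, false)] ++ ma A).map Prod.fst = ν.map Prod.fst ++ [c] ++ A := by
        rw [List.map_append, List.map_append, ma_fst]
        rfl
      rw [← h6, hμ]
      simp only [List.append_assoc]
    exact h4.trans h5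
  have hA : A = List.replicate A.length false := by
    refine suf_rep (l := (List.replicate (d + 1) false ++ uni d) ++ β) (k := d + 1) ?_ (by omega)
    refine ⟨ν.map Prod.fst ++ [c], ?_⟩
    rw [← hμ, List.map_append, List.map_append, ma_fst]
    rfl
  -- the new marking
  obtain ⟨ρ, h5, h6⟩ := col_realize (d + 1 - w.length) d m q h2 (by omega)
    (β' ++ List.replicate (d + 1 - A.length) false)
  refine ⟨ma w ++ ρ ++ ma A, ?_, ?_⟩
  · rw [List.map_append, List.map_append, ma_fst, ma_fst, h5]
    have h7 : List.replicate (d + 1) false = w ++ List.replicate (d + 1 - w.length) false := by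
      conv_rhs => rw [hw]
      rw [List.length_replicate, List.replicate_append_replicate]
      congr 1
      omega
    have h8 : List.replicate (d + 1) false = List.replicate (d + 1 - A.length) false ++ A := by
      conv_rhs => rw [hA]
      rw [List.length_replicate, List.replicate_append_replicate]
      congr 1
      omega
    have h9 : w ++ (List.replicate (d + 1 - w.length) false ++ uni d ++
        (β' ++ List.replicate (d + 1 - A.length) false)) ++ A =
        (w ++ List.replicate (d + 1 - w.length) false) ++ uni d ++ β' ++
          (List.replicate (d + 1 - A.length) false ++ A) := by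
      simp only [List.append_assoc]
    rw [h9, ← h7, ← h8]
  · rw [col_append_ma, col_append_ma, h1, List.append_assoc, col_ma, h6, List.append_assoc]

end PAD

/-- universal paddings -/
theorem t_PAD : S_PAD := by
  intro d
  refine ⟨List.replicate (d + 1) false ++ PAD.uni d, List.replicate (d + 1) false, ?_,
    fun β β' => PAD.rel_pad d β β'⟩
  rw [List.length_append, List.length_replicate]
  have h1 := PAD.len_uni d
  have h2 : d + 1 < 2 ^ (d + 1) := Nat.lt_two_pow_self
  have h3 : (2 : ℕ) ^ (d + 1) ≤ 4 ^ (d + 1) := Nat.pow_le_pow_left (by norm_num) _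
  have h4 : 4 * (4 : ℕ) ^ (d + 1) ≤ 16 ^ (d + 1) := by
    rw [show (16 : ℕ) = 4 * 4 from rfl, mul_pow]
    exact Nat.mul_le_mul_right _ (by
      calc (4 : ℕ) = 4 ^ 1 := by norm_num
        _ ≤ 4 ^ (d + 1) := Nat.pow_le_pow_right (by norm_num) (by omega))
  omega

end Pool.Agent.TH431.RB
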