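import Pool.Agent.TH431.RB.Stmts

/-!
# RB-SLOW: a piece in which head `h` moves slowly, outside the zone
-/

set_option autoImplicit false

namespace Pool.Agent.TH431.RB

open Pool.Agent.H867R4
open Pool.Agent.H541R2 (rd mv)

namespace SLOW

variable {α Q : Type}

theorem mvs_mono {k : ℕ} (ρ : ℕ → NCfg k Q) (h : Fin k) (t : ℕ) {s s' : ℕ} (hs : s ≤ s') :
    mvs ρ h t s ≤ mvs ρ h t s' := by
  unfold mvs
  exact Finset.card_le_card (Finset.filter_subset_filter _ (Finset.Ico_subset_Ico le_rfl hs))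

theorem mvs_succ_ne {k : ℕ} (ρ : ℕ → NCfg k Q) (h : Fin k) {t s : ℕ} (hs : t ≤ s)
    (hm : (ρ (s + 1)).p h ≠ (ρ s).p h) : mvs ρ h t (s + 1) = mvs ρ h t s + 1 := by
  unfold mvs
  have e : Finset.Ico t (s + 1) = insert s (Finset.Ico t s) := by
    ext x
    simp only [Finset.mem_Ico, Finset.mem_insert]
    omega
  rw [e, Finset.filter_insert, if_pos hm, Finset.card_insert_of_notMem]
  simp

theorem mvs_succ_eq {k : ℕ} (ρ : ℕ → NCfg k Q) (h : Fin k) {t s : ℕ} (hs : t ≤ s)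
    (hm : (ρ (s + 1)).p h = (ρ s).p h) : mvs ρ h t (s + 1) = mvs ρ h t s := by
  unfold mvs
  have e : Finset.Ico t (s + 1) = insert s (Finset.Ico t s) := by
    ext x
    simp only [Finset.mem_Ico, Finset.mem_insert]
    omega
  rw [e, Finset.filter_insert, if_neg (by simpa using hm)]

theorem mvs_self {k : ℕ} (ρ : ℕ → NCfg k Q) (h : Fin k) (t : ℕ) : mvs ρ h t t = 0 := by
  unfold mvs
  simp

/-- no moves between two times with the same number of moves -/
theorem p_eq_of_mvs {k : ℕ} (ρ : ℕ → NCfg k Q) (h : Fin k) {t s : ℕ} (hs : t ≤ s) :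
    ∀ n : ℕ, mvs ρ h t s = mvs ρ h t (s + n) → (ρ s).p h = (ρ (s + n)).p h := by
  intro n
  induction n with
  | zero => intro _; rfl
  | succ n ih =>
    intro h1
    have h2 := mvs_mono ρ h t (s := s) (s' := s + n) (by omega)
    have h3 := mvs_mono ρ h t (s := s + n) (s' := s + (n + 1)) (by omega)
    have h4 : mvs ρ h t s = mvs ρ h t (s + n) := by omega
    rw [ih h4]
    by_contra hne
    have h5 := mvs_succ_ne ρ h (t := t) (s := s + n) (by omega) (fun h => hne h.symm)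
    have e : s + n + 1 = s + (n + 1) := by ring
    rw [e] at h5
    omega

theorem p_eq_of_mvs' {k : ℕ} (ρ : ℕ → NCfg k Q) (h : Fin k) {t s s' : ℕ} (hs : t ≤ s)
    (hs' : t ≤ s') (he : mvs ρ h t s = mvs ρ h t s') : (ρ s).p h = (ρ s').p h := by
  rcases le_total s s' with h1 | h1
  · obtain ⟨n, rfl⟩ := Nat.exists_eq_add_of_le h1
    exact p_eq_of_mvs ρ h hs n he
  · obtain ⟨n, rfl⟩ := Nat.exists_eq_add_of_le h1
    exact (p_eq_of_mvs ρ h hs' n he.symm).symm

open Classical in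
/-- the position of head `h` in the stage `i` -/
noncomputable def pos (ρ : ℕ → NCfg 2 Q) (h : Fin 2) (t m i : ℕ) : ℕ :=
  if H : ∃ s, t ≤ s ∧ s ≤ t + m ∧ mvs ρ h t s = i then (ρ H.choose).p h else (ρ (t + m)).p h

theorem pos_eq (ρ : ℕ → NCfg 2 Q) (h : Fin 2) {t m s : ℕ} (h1 : t ≤ s) (h2 : s ≤ t + m) :
    pos ρ h t m (mvs ρ h t s) = (ρ s).p h := by
  have H : ∃ s', t ≤ s' ∧ s' ≤ t + m ∧ mvs ρ h t s' = mvs ρ h t s := ⟨s, h1, h2, rfl⟩
  unfold pos
  rw [dif_pos H]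
  obtain ⟨a1, _, a3⟩ := H.choose_spec
  exact p_eq_of_mvs' ρ h a1 h1 a3

theorem pos_out {U Z : List α} (ρ : ℕ → NCfg 2 Q) (h : Fin 2) {t m : ℕ}
    (h2 : ∀ s, t ≤ s → s ≤ t + m → Out U Z ((ρ s).p h)) (i : ℕ) : Out U Z (pos ρ h t m i) := by
  unfold pos
  split_ifs with H
  · obtain ⟨a1, a2, _⟩ := H.choose_spec
    exact h2 _ a1 a2
  · exact h2 _ (by omega) le_rfl

/-- the machine with the other head only; the stage is a part of the state -/
def Mh (M : NMach α 2 Q) (w : List α) (h h' : Fin 2) (ps : ℕ → ℕ) : NMach α 1 (Q × ℕ) where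
  δ := fun x cells => {z | ∃ y ∈ M.δ x.1 (fun a => if a = h then rd w (ps x.2) else cells 0),
    z.1.1 = y.1 ∧ z.2 0 = y.2 h' ∧
      ((z.1.2 = x.2 ∧ mv w.length (y.2 h) (ps x.2) = ps x.2) ∨
        (z.1.2 = x.2 + 1 ∧ mv w.length (y.2 h) (ps x.2) = ps (x.2 + 1)))}
  q₀ := (M.q₀, 0)
  F := ∅

theorem graded_tbl (M : NMach α 2 Q) (w : List α) (h h' : Fin 2) (ps : ℕ → ℕ) (w' : List α)
    (g : Fin 1) (c : NCfg 1 (Q × ℕ)) : Graded (tbl (Mh M w h h' ps) w' g c) := by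
  intro x a z hz
  obtain ⟨y, hy, h1, _, _⟩ := hz
  obtain ⟨y', _, _, _, h2⟩ := hy
  rw [← h1]
  rcases h2 with h2 | h2
  · exact Or.inl h2.1
  · exact Or.inr h2.1

theorem esc_mono {T : Table (Q × ℕ) α} (hT : Graded T) {y : List α} {q : Q × ℕ} {i : ℕ} {s : Bool}
    {r : Q × ℕ} (hE : Esc T y q i s r) : q.2 ≤ r.2 := by
  induction hE with
  | outL q => exact le_rfl
  | outR q => exact le_rfl
  | step q i a q' m s r h1 h2 h3 _ ih =>
    have := hT q (false, some a) (q', m) h3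
    simp only at this
    omega

theorem step_mono {M : NMach α 2 Q} {w : List α} {h h' : Fin 2} {ps : ℕ → ℕ} {w' : List α}
    {c c' : NCfg 1 (Q × ℕ)} (hs : (Mh M w h h' ps).Step w' c c') : c.q.2 ≤ c'.q.2 := by
  obtain ⟨x, hx, h1, _⟩ := hs
  obtain ⟨y, _, _, _, h2⟩ := hx
  rw [h1]
  rcases h2 with h2 | h2
  · exact h2.1.ge
  · rw [h2.1]; omega

/-- the computations on the word with the other zone -/
theorem free_run {M : NMach α 2 Q} {w U Z Z' U' : List α} (hU : U ≠ [])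
    (hZ : Z.length = Z'.length) {h h' : Fin 2} {ps : ℕ → ℕ} {D : ℕ}
    (hH : ∀ T : Table (Q × ℕ) α, Graded T → ∀ (e s : Bool) (x y : Q × ℕ), y.2 ≤ x.2 + D →
      Beh Z T e x s y → Beh Z' T e x s y) {c d : NCfg 1 (Q × ℕ)}
    (hF : Free (Mh M w h h' ps) U Z U' c d) :
    c.q.2 ≤ d.q.2 ∧ (d.q.2 ≤ c.q.2 + D →
      Relation.ReflTransGen ((Mh M w h h' ps).Step (U ++ Z' ++ U')) c d) := by
  induction hF with
  | refl c => exact ⟨le_rfl, fun _ => Relation.ReflTransGen.refl⟩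
  | step c c' d h1 h2 _ ih =>
    have h3 := step_mono h2
    refine ⟨h3.trans ih.1, fun h4 => ?_⟩
    exact Relation.ReflTransGen.head (step_out hU hZ h1 h2) (ih.2 (by omega))
  | trav g e s r c d h1 h2 h3 _ ih =>
    have hg := graded_tbl M w h h' ps (U ++ Z ++ U') g c
    have h4 : c.q.2 ≤ r.2 := esc_mono hg h3
    have h5 : r.2 ≤ d.q.2 := ih.1
    refine ⟨h4.trans h5, fun h6 => ?_⟩
    have h7 := hH _ hg e s c.q r (by omega) h3
    rw [tbl_out hU hZ h1] at h7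
    have hE : Esc (tbl (Mh M w h h' ps) (U ++ Z' ++ U') g c) Z' c.q
      (if e then Z'.length else 1) s r := h7
    have h8 := hE.run
    rw [← hZ, ← h2, NCfg.set_self] at h8
    refine h8.trans (ih.2 ?_)
    have e1 : (c.set g r (U.length + if s = true then Z.length + 1 else 0)).q.2 = r.2 := rfl
    omega

/-- the configuration of the machine with two heads -/
def Phi (h : Fin 2) (ps : ℕ → ℕ) (c : NCfg 1 (Q × ℕ)) : NCfg 2 Q :=
  ⟨c.q.1, fun a => if a = h then ps c.q.2 else c.p 0⟩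

theorem phi_step {M : NMach α 2 Q} {U Z Z' U' : List α} (hU : U ≠ [])
    (hZ : Z.length = Z'.length) {h h' : Fin 2} (hh : ∀ a : Fin 2, a ≠ h → a = h') {ps : ℕ → ℕ}
    (hps : ∀ i, Out U Z (ps i)) {c c' : NCfg 1 (Q × ℕ)}
    (hs : (Mh M (U ++ Z ++ U') h h' ps).Step (U ++ Z' ++ U') c c') :
    M.Step (U ++ Z' ++ U') (Phi h ps c) (Phi h ps c') := by
  obtain ⟨x, hx, h1, h2⟩ := hs
  obtain ⟨y, hy, h3, h4, h5⟩ := hx
  refine ⟨y, ?_, ?_, ?_⟩
  · have e : (fun i => rd (U ++ Z' ++ U') ((Phi h ps c).p i)) =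
        fun a => if a = h then rd (U ++ Z ++ U') (ps c.q.2) else rd (U ++ Z' ++ U') (c.p 0) := by
      funext a
      unfold Phi
      simp only
      split_ifs with ha
      · exact (rd_out hU hZ (hps _)).symm
      · rfl
    rw [e]
    exact hy
  · show c'.q.1 = y.1
    rw [h1, h3]
  · intro a
    unfold Phi
    simp only
    rw [h1]
    split_ifs with ha
    · subst ha
      rw [len_eq (U' := U') hZ] at h5
      rcases h5 with h5 | h5
      · rw [h5.1, h5.2]
      · rw [h5.1, h5.2]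
    · rw [h2 0, h4, ← hh a ha]

end SLOW

open SLOW in
theorem t_SLOW : S_SLOW := by
  intro α Q M U Z Z' U' hU hZ hZ1 d hH h ρ t m h1 h2 h3 h4 h5
  obtain ⟨h', hne, hh⟩ : ∃ h' : Fin 2, h' ≠ h ∧ ∀ a : Fin 2, a ≠ h → a = h' := by
    fin_cases h
    · exact ⟨1, by decide, by decide⟩
    · exact ⟨0, by decide, by decide⟩
  set ps : ℕ → ℕ := pos ρ h t m with hps
  set w : List α := U ++ Z ++ U' with hw
  set ρ' : ℕ → NCfg 1 (Q × ℕ) := fun s => ⟨((ρ s).q, mvs ρ h t s), fun _ => (ρ s).p h'⟩ with hρ'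
  have hphi : ∀ s, t ≤ s → s ≤ t + m → Phi h ps (ρ' s) = ρ s := by
    intro s hs hs'
    apply NCfg.ext
    · rfl
    · funext a
      show (if a = h then ps (mvs ρ h t s) else (ρ s).p h') = (ρ s).p a
      split_ifs with ha
      · rw [ha, hps, pos_eq ρ h hs hs']
      · rw [hh a ha]
  have hstep : ∀ s, t ≤ s → s < t + m → (Mh M w h h' ps).Step w (ρ' s) (ρ' (s + 1)) := by
    intro s hs hs'
    obtain ⟨x, hx, a1, a2⟩ := h1 s hs hs'
    have hp : ps (mvs ρ h t s) = (ρ s).p h := by rw [hps, pos_eq ρ h hs (by omega)]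
    have hp' : ps (mvs ρ h t (s + 1)) = (ρ (s + 1)).p h := by
      rw [hps, pos_eq ρ h (by omega) (by omega)]
    refine ⟨(((ρ (s + 1)).q, mvs ρ h t (s + 1)), fun _ => x.2 h'), ⟨x, ?_, a1, rfl, ?_⟩, rfl, ?_⟩
    · have e : (fun a => if a = h then rd w (ps (mvs ρ h t s)) else rd w ((ρ s).p h')) =
          fun i => rd w ((ρ s).p i) := by
        funext a
        split_ifs with ha
        · rw [ha, hp]
        · rw [hh a ha]
      show x ∈ M.δ (ρ s).q (fun a => if a = h then rd w (ps (mvs ρ h t s)) else rd w ((ρ s).p h'))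
      rw [e]
      exact hx
    · show (mvs ρ h t (s + 1) = mvs ρ h t s ∧
          mv w.length (x.2 h) (ps (mvs ρ h t s)) = ps (mvs ρ h t s)) ∨
        (mvs ρ h t (s + 1) = mvs ρ h t s + 1 ∧
          mv w.length (x.2 h) (ps (mvs ρ h t s)) = ps (mvs ρ h t s + 1))
      by_cases hm : (ρ (s + 1)).p h = (ρ s).p h
      · left
        refine ⟨mvs_succ_eq ρ h hs hm, ?_⟩
        rw [hp, ← a2 h, hm]
      · right
        have e := mvs_succ_ne ρ h hs hm
        refine ⟨e, ?_⟩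
        rw [← e, hp', hp, a2 h]
    · intro i
      exact a2 h'
  have hfree := (free_of_solo (M := Mh M w h h' ps) (U := U) (Z := Z) (U' := U') hZ1 (ρ := ρ')
    (h := (0 : Fin 1)) m t hstep (fun s _ _ i hi => absurd (Subsingleton.elim i 0) hi)
    (fun i hi => absurd (Subsingleton.elim i 0) hi) (h4 h')).1 (h3 h')
  have hrun := (free_run (M := M) (w := w) hU hZ hH hfree).2 (by
    show mvs ρ h t (t + m) ≤ mvs ρ h t t + d
    rw [mvs_self]
    omega)
  have hlift : Relation.ReflTransGen (M.Step (U ++ Z' ++ U')) (Phi h ps (ρ' t))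
      (Phi h ps (ρ' (t + m))) := Relation.ReflTransGen.lift (Phi h ps)
    (fun c c' hs => phi_step (M := M) hU hZ hh (pos_out ρ h h2) hs) _ _ hrun
  rw [hphi t le_rfl (by omega), hphi (t + m) (by omega) le_rfl] at hlift
  exact hlift

end Pool.Agent.TH431.RB
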