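import Pool.Agent.TH431.RB.Defs

set_option autoImplicit false

namespace Pool.Agent.TH431.RB

open Pool.Agent.H867R4

variable {k : ℕ} {Q : Type}

theorem sweep_mvs_self (ρ : ℕ → NCfg k Q) (h : Fin k) (t : ℕ) : mvs ρ h t t = 0 := by
  simp [mvs]

theorem sweep_mvs_succ (ρ : ℕ → NCfg k Q) (h : Fin k) {t t' : ℕ} (ht : t ≤ t') :
    mvs ρ h t (t' + 1) = mvs ρ h t t' + (if (ρ (t' + 1)).p h ≠ (ρ t').p h then 1 else 0) := by
  unfold mvs
  rw [← Finset.insert_Ico_right_eq_Ico_add_one ht, Finset.filter_insert]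
  split_ifs with h1
  · rw [Finset.card_insert_of_notMem (by simp)]
  · simp

theorem sweep_mvs_add (ρ : ℕ → NCfg k Q) (h : Fin k) {a b c : ℕ} (h1 : a ≤ b) (h2 : b ≤ c) :
    mvs ρ h a c = mvs ρ h a b + mvs ρ h b c := by
  induction c, h2 using Nat.le_induction with
  | base => simp [sweep_mvs_self]
  | succ c hc ih => rw [sweep_mvs_succ ρ h (h1.trans hc), sweep_mvs_succ ρ h hc, ih, Nat.add_assoc]

theorem mvs_up {ρ : ℕ → NCfg k Q} {h : Fin k} {t t' : ℕ} (ht : t ≤ t')
    (hm : ∀ s, t ≤ s → s < t' → (ρ s).p h ≤ (ρ (s + 1)).p h) :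
    (ρ t).p h + mvs ρ h t t' ≤ (ρ t').p h := by
  induction t', ht using Nat.le_induction with
  | base => simp [sweep_mvs_self]
  | succ c hc ih =>
    have h1 := ih (fun s hs hs' => hm s hs (by omega))
    have h2 := hm c hc (by omega)
    rw [sweep_mvs_succ ρ h hc]
    split_ifs with h3
    · omega
    · omega

theorem mvs_down {ρ : ℕ → NCfg k Q} {h : Fin k} {t t' : ℕ} (ht : t ≤ t')
    (hm : ∀ s, t ≤ s → s < t' → (ρ (s + 1)).p h ≤ (ρ s).p h) :
    (ρ t').p h + mvs ρ h t t' ≤ (ρ t).p h := by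
  induction t', ht using Nat.le_induction with
  | base => simp [sweep_mvs_self]
  | succ c hc ih =>
    have h1 := ih (fun s hs hs' => hm s hs (by omega))
    have h2 := hm c hc (by omega)
    rw [sweep_mvs_succ ρ h hc]
    split_ifs with h3
    · omega
    · omega

/-- If the time up to `T` splits into `I` parts in each of which head `h` moves in one direction only,
then the head makes at most `I (n + 1)` moves. -/
theorem mvs_sweeps {ρ : ℕ → NCfg k Q} {h : Fin k} {T I n : ℕ}
    (hb : ∀ s, s ≤ T → (ρ s).p h ≤ n + 1) (t : ℕ → ℕ) (h0 : t 0 = 0) (hI : t I = T)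
    (ht : ∀ j < I, t j ≤ t (j + 1) ∧
      ((∀ s, t j ≤ s → s < t (j + 1) → (ρ s).p h ≤ (ρ (s + 1)).p h) ∨
       (∀ s, t j ≤ s → s < t (j + 1) → (ρ (s + 1)).p h ≤ (ρ s).p h))) :
    mvs ρ h 0 T ≤ I * (n + 1) := by
  have hmono : ∀ d j, j + d = I → t j ≤ T := by
    intro d
    induction d with
    | zero => intro j hj; rw [← hI, ← hj]; simp
    | succ d ih => intro j hj; exact (ht j (by omega)).1.trans (ih (j + 1) (by omega))
  have key : ∀ j, j ≤ I → mvs ρ h 0 (t j) ≤ j * (n + 1) := by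
    intro j
    induction j with
    | zero => intro _; rw [h0, sweep_mvs_self]; omega
    | succ j ih =>
      intro hj
      have h1 := ih (by omega)
      obtain ⟨h2, h3⟩ := ht j (by omega)
      rw [sweep_mvs_add ρ h (Nat.zero_le _) h2]
      have b1 := hb (t j) (hmono (I - j) j (by omega))
      have b2 := hb (t (j + 1)) (hmono (I - (j + 1)) (j + 1) (by omega))
      have h4 : mvs ρ h (t j) (t (j + 1)) ≤ n + 1 := by
        rcases h3 with h3 | h3
        · have := mvs_up h2 h3; omega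
        · have := mvs_down h2 h3; omega
      have e : (j + 1) * (n + 1) = j * (n + 1) + (n + 1) := by ring
      omega
  have := key I le_rfl
  rwa [hI] at this

end Pool.Agent.TH431.RB
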