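import Pool.Agent.TH431.RB.Fin2
import Pool.Agent.TH431.RB.Sweep
import Pool.Agent.TH431.RB.GB1
import Pool.Agent.TH431.RB.GB2
import Pool.Agent.TH431.RB.IDEM
import Pool.Agent.TH431.RB.CARD
import Pool.Agent.TH431.RB.SLOW
import Pool.Agent.TH431.RB.PAD

set_option autoImplicit false

namespace Pool.Agent.TH431.RB

open Pool.Agent.H867R4
open Pool.Agent.H541R2 (theLang)

theorem t_GB (h1 : S_GB1) (h2 : S_GB2) : S_GB := by
  intro Q α v hpos hlen hbeh hidem T hT d l l' hrel e s x y hd hB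
  obtain ⟨hm, hf⟩ := h1 Q α v hpos hlen T hT
  obtain ⟨μ, hμ1, hμ2, hμ3, hμ4⟩ := hm l e s x y hB
  obtain ⟨μ', hμ'1, hμ'2⟩ := hrel μ hμ1 (by omega)
  have h3 := hf μ' e s x y (by rw [h2 Q α v hpos hlen hbeh hidem T μ' μ hμ'2]; exact hμ4)
  rwa [hμ'1] at h3

/-- Splittings into pieces with at most `n` steps, or at most `c log n` moves of some head. -/
theorem final (Q : Type) [Fintype Q] : ∃ c : ℝ, 0 < c ∧ ∀ n₀ : ℕ, ∃ n : ℕ,
    n₀ ≤ n ∧ ∀ (M : NMach (Fin 4) 2 Q),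
    (∀ w : List (Fin 4), w.length = n → (w ∈ theLang ↔ M.Accepts w)) →
    ∃ w : List (Fin 4), w.length = n ∧ w ∈ theLang ∧ ∀ (T d I : ℕ) (ρ : ℕ → NCfg 2 Q),
      M.AccRun w T ρ → (d : ℝ) ≤ c * Real.log n → SPieces n d T I ρ → c * (n : ℝ) ≤ I :=
  strong t_PAD t_IDEM t_HAT2 t_CARD (t_ROW (t_GB t_GB1 t_GB2) t_SLOW t_HAT1) Q

end Pool.Agent.TH431.RB
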