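import Pool.Agent.TH431.RB.Fin

set_option autoImplicit false

namespace Pool.Agent.TH431.RB

theorem t_GB (h1 : S_GB1) (h2 : S_GB2) : S_GB := by
  intro Q α v hpos hlen hbeh hidem T hT d l l' hrel e s x y hd hB
  obtain ⟨hm, hf⟩ := h1 Q α v hpos hlen T hT
  obtain ⟨μ, hμ1, hμ2, hμ3, hμ4⟩ := hm l e s x y hB
  obtain ⟨μ', hμ'1, hμ'2⟩ := hrel μ hμ1 (by omega)
  have h3 := hf μ' e s x y (by rw [h2 Q α v hpos hlen hbeh hidem T μ' μ hμ'2]; exact hμ4)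
  rwa [hμ'1] at h3

theorem final_of (h1 : S_GB1) (h2 : S_GB2) (hPAD : S_PAD) (hIDEM : S_IDEM) (hHAT1 : S_HAT1)
    (hHAT2 : S_HAT2) (hCARD : S_CARD) (hCHAIN : S_CHAIN) (hSLOW : S_SLOW)
    (hROW : S_GB → S_SLOW → S_HAT1 → S_ROW) (hGAP : S_GAP) : S_FINAL :=
  t_FINAL hPAD hIDEM hHAT2 hCARD hCHAIN (hROW (t_GB h1 h2) hSLOW hHAT1) hGAP

end Pool.Agent.TH431.RB
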