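import Pool.Agent.TH431.RB.Stmts

set_option autoImplicit false

namespace Pool.Agent.TH431.RB

open Pool.Agent.H867R4
open Pool.Agent.H38R3.MH (Mark)

section

variable {k : ℕ} {Q : Type} {g N : ℕ} {W : (Fin (g + 1) → Fin N → Bool) → List (Fin 4)}
  {M : NMach (Fin 4) k Q} {K : Finset (NCfg k Q)} {b : Fin (g + 1) → Fin N → Bool}

theorem Acc.mono' {R : ℕ} {c : NCfg k Q} (hc : c ∈ K) (h : Acc W M K b R c) :
    Acc W M K b (R + 1) c :=
  ⟨0, c, hc, fun _ _ => Relation.ReflTransGen.refl, h⟩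

theorem Acc.mono_add' {R : ℕ} {c : NCfg k Q} (hc : c ∈ K) (h : Acc W M K b R c)
    (e : ℕ) : Acc W M K b (e + R) c := by
  induction e with
  | zero => rw [Nat.zero_add]; exact h
  | succ e ih =>
    have := Acc.mono' hc ih
    rwa [show e + R + 1 = e + 1 + R by ring] at this

/-- One piece gives at most two phases. -/
theorem chain_piece_step {ρ : ℕ → NCfg k Q} {T D : ℕ}
    (hgap : ∀ t t', t ≤ t' → t' ≤ T → (∀ s, t < s → s < t' → ¬ Mark D (ρ s)) →
      ∃ r, Ph W M b r (ρ t) (ρ t'))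
    (hK : ∀ s, s ≤ T → Mark D (ρ s) → ρ s ∈ K)
    {a a' R : ℕ} (haa : a ≤ a') (ha' : a' ≤ T)
    (hPh : ∀ f l, a ≤ f → f ≤ l → l ≤ a' → ∃ r, Ph W M b r (ρ f) (ρ l))
    (hnext : ∀ t', t' ≤ a' → ρ t' ∈ K → (∀ s, t' < s → s < a' → ¬ Mark D (ρ s)) →
      Acc W M K b R (ρ t'))
    {t : ℕ} (hta : t ≤ a) (htK : ρ t ∈ K) (htm : ∀ s, t < s → s < a → ¬ Mark D (ρ s)) :
    Acc W M K b (2 + R) (ρ t) := by
  classical
  by_cases h : ∃ s, a ≤ s ∧ s ≤ a' ∧ Mark D (ρ s)
  · obtain ⟨f, ⟨hf1, hf2, hf3⟩, hfmin⟩ : ∃ f, (a ≤ f ∧ f ≤ a' ∧ Mark D (ρ f)) ∧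
        ∀ s, s < f → ¬ (a ≤ s ∧ s ≤ a' ∧ Mark D (ρ s)) :=
      ⟨Nat.find h, Nat.find_spec h, fun s hs => Nat.find_min h hs⟩
    obtain ⟨l, hl1, hl2, hl3, hl4⟩ : ∃ l, f ≤ l ∧ l ≤ a' ∧ Mark D (ρ l) ∧
        ∀ s, l < s → s ≤ a' → ¬ Mark D (ρ s) := by
      refine ⟨Nat.findGreatest (fun s => Mark D (ρ s)) a', Nat.le_findGreatest hf2 hf3,
        Nat.findGreatest_le _, ?_, fun s hs hs' => Nat.findGreatest_is_greatest hs hs'⟩
      exact Nat.findGreatest_spec (P := fun s => Mark D (ρ s)) hf2 hf3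
    obtain ⟨r₁, hr₁⟩ := hgap t f (by omega) (by omega) (by
      intro s hs hs' hm
      by_cases hsa : s < a
      · exact htm s hs hsa hm
      · exact hfmin s hs' ⟨by omega, by omega, hm⟩)
    obtain ⟨r₂, hr₂⟩ := hPh f l hf1 hl1 hl2
    rw [show 2 + R = R + 1 + 1 by ring]
    refine ⟨r₁, ρ f, hK f (by omega) hf3, hr₁, r₂, ρ l, hK l (by omega) hl3, hr₂, ?_⟩
    exact hnext l hl2 (hK l (by omega) hl3) (fun s hs hs' => hl4 s hs hs'.le)
  · apply Acc.mono_add' htK
    apply hnext t (by omega) htK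
    intro s hs hs' hm
    by_cases hsa : s < a
    · exact htm s hs hsa hm
    · exact h ⟨s, by omega, hs'.le, hm⟩

theorem chain_mvs_add (ρ : ℕ → NCfg k Q) (h : Fin k) {a m c : ℕ} (h1 : a ≤ m) (h2 : m ≤ c) :
    mvs ρ h a c = mvs ρ h a m + mvs ρ h m c := by
  unfold mvs
  rw [← Finset.Ico_union_Ico_eq_Ico h1 h2, Finset.filter_union, Finset.card_union_of_disjoint]
  exact Finset.disjoint_filter_filter (Finset.Ico_disjoint_Ico_consecutive a m c)

theorem chain_mvs_self (ρ : ℕ → NCfg k Q) (h : Fin k) (a : ℕ) : mvs ρ h a a = 0 := by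
  simp [mvs]

theorem chain_mvs_one (ρ : ℕ → NCfg k Q) (h : Fin k) (a : ℕ) : mvs ρ h a (a + 1) ≤ 1 := by
  unfold mvs
  refine (Finset.card_filter_le _ _).trans ?_
  simp

end

theorem t_CHAIN : S_CHAIN := by
  classical
  intro k Q g N W M K b D d T ρ h hd hgap hslow hK h0 hF
  have key : ∀ I a t, a ≤ T → t ≤ a → ρ t ∈ K → (∀ s, t < s → s < a → ¬ Mark D (ρ s)) →
      (a = T ∨ mvs ρ h a T < I * d) → Acc W M K b (2 * I) (ρ t) := by
    intro I
    induction I with
    | zero =>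
      intro a t haT hta htK htm hor
      have haT' : a = T := by
        rcases hor with h1 | h1
        · exact h1
        · rw [Nat.zero_mul] at h1
          exact absurd h1 (Nat.not_lt_zero _)
      subst haT'
      rw [Nat.mul_zero]
      obtain ⟨r, hr⟩ := hgap t a hta le_rfl htm
      exact ⟨r, ρ a, hF, hr⟩
    | succ I ih =>
      intro a t haT hta htK htm hor
      obtain ⟨a', haa', ha'T, ha'd, hmax⟩ : ∃ a', a ≤ a' ∧ a' ≤ T ∧ mvs ρ h a a' ≤ d ∧
          ∀ s, a' < s → s ≤ T → ¬ mvs ρ h a s ≤ d := by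
        have hPa : mvs ρ h a a ≤ d := by rw [chain_mvs_self]; exact Nat.zero_le _
        refine ⟨Nat.findGreatest (fun s => mvs ρ h a s ≤ d) T, Nat.le_findGreatest haT hPa,
          Nat.findGreatest_le _, ?_, fun s hs hs' =>
            Nat.findGreatest_is_greatest (P := fun s => mvs ρ h a s ≤ d) hs hs'⟩
        exact Nat.findGreatest_spec (P := fun s => mvs ρ h a s ≤ d) haT hPa
      rw [show 2 * (I + 1) = 2 + 2 * I by ring]
      refine chain_piece_step hgap hK haa' ha'T ?_ ?_ hta htK htm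
      · intro f l hf hfl hl
        apply hslow f l hfl (hl.trans ha'T)
        have e1 := chain_mvs_add ρ h hf (hfl.trans hl)
        have e2 := chain_mvs_add ρ h hfl hl
        omega
      · intro t' ht' ht'K ht'm
        apply ih a' t' ha'T ht' ht'K ht'm
        by_cases hT : a' = T
        · exact Or.inl hT
        · right
          have h1 : mvs ρ h a T < (I + 1) * d := by
            rcases hor with h1 | h1
            · omega
            · exact h1
          have h2 := hmax (a' + 1) (Nat.lt_succ_self _) (by omega)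
          have h3 := chain_mvs_add ρ h haa' (Nat.le_succ a')
          have h4 := chain_mvs_one ρ h a'
          have h5 := chain_mvs_add ρ h haa' ha'T
          have h6 : (I + 1) * d = I * d + d := by ring
          simp only [Nat.succ_eq_add_one] at h3
          omega
  refine key _ 0 0 (Nat.zero_le _) le_rfl h0 (fun s hs hs' => absurd hs' (Nat.not_lt_zero _)) ?_
  right
  rw [Nat.add_mul, Nat.one_mul]
  exact Nat.lt_div_mul_add (by omega)

end Pool.Agent.TH431.RB
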