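import Pool.Agent.TH431.RB.Stmts

/-!
# Pieces in which one head moves slowly, and pieces without marks, are phases
-/

set_option autoImplicit false

namespace Pool.Agent.TH431.RB

open Pool.Agent.H867R4
open Pool.Agent.H541R2 (gsign theLang mu)

section moves

variable {k : ℕ} {Q : Type}

theorem row_mvs_self (ρ : ℕ → NCfg k Q) (h : Fin k) (t : ℕ) : mvs ρ h t t = 0 := by
  simp [mvs]

theorem row_mvs_succ (ρ : ℕ → NCfg k Q) (h : Fin k) (t m : ℕ) :
    mvs ρ h t (t + (m + 1)) =
      mvs ρ h t (t + m) + (if (ρ (t + m + 1)).p h ≠ (ρ (t + m)).p h then 1 else 0) := by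
  unfold mvs
  have e : Finset.Ico t (t + (m + 1)) = insert (t + m) (Finset.Ico t (t + m)) := by
    ext x
    simp only [Finset.mem_Ico, Finset.mem_insert]
    omega
  rw [e, Finset.filter_insert]
  split_ifs with hc
  · rw [Finset.card_insert_of_notMem (by simp)]
  · rw [Nat.add_zero]

theorem row_mvs_mono (ρ : ℕ → NCfg k Q) (h : Fin k) (t m m' : ℕ) (hm : m ≤ m') :
    mvs ρ h t (t + m) ≤ mvs ρ h t (t + m') := by
  unfold mvs
  apply Finset.card_le_card
  apply Finset.filter_subset_filter
  apply Finset.Ico_subset_Ico le_rfl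
  omega

/-- a head is displaced by at most its number of moves -/
theorem row_displ {α : Type} {M : NMach α k Q} {w : List α} {ρ : ℕ → NCfg k Q} (h : Fin k) (t : ℕ) :
    ∀ m, (∀ s, t ≤ s → s < t + m → M.Step w (ρ s) (ρ (s + 1))) →
      (∀ s, t ≤ s → s ≤ t + m → ∀ i, (ρ s).p i ≤ w.length + 1) →
      (ρ (t + m)).p h ≤ (ρ t).p h + mvs ρ h t (t + m) ∧
        (ρ t).p h ≤ (ρ (t + m)).p h + mvs ρ h t (t + m) := by
  intro m
  induction m with
  | zero => intro _ _; rw [Nat.add_zero]; constructor <;> omega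
  | succ m ih =>
    intro h1 h2
    obtain ⟨a1, a2⟩ := ih (fun s hs hs' => h1 s hs (by omega)) (fun s hs hs' => h2 s hs (by omega))
    rw [row_mvs_succ]
    obtain ⟨b1, b2, _⟩ := pos_close (t := t + m) 1
      (fun s hs hs'' => h1 s (by omega) (by omega)) (h2 (t + m) (by omega) (by omega)) h
    rw [show t + (m + 1) = t + m + 1 by ring]
    by_cases hc : (ρ (t + m + 1)).p h = (ρ (t + m)).p h
    · rw [hc]
      simp only [ne_eq, not_true_eq_false, if_false]
      constructor <;> omega
    · simp only [ne_eq, hc, not_false_eq_true, if_true]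
      constructor <;> omega

end moves

theorem row_zone_append {Q : Type} (C : Code Q) (l l' : List Bool) :
    C.zone (l ++ l') = C.zone l ++ C.zone l' := by
  simp [Code.zone]

theorem zone_ex {Q : Type} (C : Code Q) (k : ℕ) (l : List Bool) :
    C.zone (ex k l) = ((l.map (fun x => C.zone (blk k x))).flatten) := by
  induction l with
  | nil => simp [ex, Code.zone]
  | cons x l ih =>
    have e : ex k (x :: l) = blk k x ++ ex k l := by simp [ex]
    rw [e, row_zone_append, ih, List.map_cons, List.flatten_cons]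

theorem row_blk_length (k : ℕ) (hk : 1 ≤ k) (x : Bool) : (blk k x).length = k := by
  simp only [blk, List.length_cons, List.length_replicate]
  omega

theorem hat_congr (k : ℕ) (P P' : List Bool) {g N : ℕ} (b b' : Fin g → Fin N → Bool) (j : Fin g)
    (h : b' j = b j) : hat k P P' b j = hat k P P' b' j := by
  unfold hat
  rw [h]

theorem t_ROW : S_GB → S_SLOW → S_HAT1 → S_ROW := by
  intro hGB hSLOW hHAT Q C k hk hidem d P P' hrel M N b h ρ T hN hd hst hpos t t' htt ht' hm
  obtain ⟨m, rfl⟩ := Nat.exists_eq_add_of_le htt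
  obtain ⟨D, hD⟩ : ∃ D, D = (P.length + N + P'.length) * k * (C.x₁.length + 1) + 1 := ⟨_, rfl⟩
  have hDpos : 0 < D := by omega
  have hdD : d < D := by omega
  have hNN : 1 ≤ (P.length + N + P'.length) * k := Nat.mul_pos (by omega) (by omega)
  -- the head `h` stays close
  have hclose : ∀ s, t ≤ s → s ≤ t + m →
      (ρ s).p h ≤ (ρ t).p h + D ∧ (ρ t).p h ≤ (ρ s).p h + D := by
    intro s hs hs'
    obtain ⟨e, rfl⟩ := Nat.exists_eq_add_of_le hs
    obtain ⟨a1, a2⟩ := row_displ (M := M) (w := C.W (hat k P P' b)) (ρ := ρ) h t e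
      (fun s hs hs'' => hst s (by omega)) (fun s hs hs'' => hpos s (by omega))
    have a3 := row_mvs_mono ρ h t e m (by omega)
    constructor <;> omega
  obtain ⟨r, hr⟩ := exists_row (fun (i : Fin 2) (e : Fin 3) =>
    if i = h then (ρ t).p i / D + e.val - 1
    else if e = 0 then (ρ t).p i / D else (ρ (t + m)).p i / D)
  -- head `h` is outside the zone all the time
  have hout : ∀ s, t ≤ s → s ≤ t + m →
      Out (C.U (hat k P P' b) r) (C.zone (List.ofFn (hat k P P' b r))) ((ρ s).p h) := by
    intro s hs hs'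
    apply out_of_block
    rw [← hD]
    intro hblk
    obtain ⟨a1, a2⟩ := hclose s hs hs'
    have e0 := hr h 0
    have e1 := hr h 1
    have e2 := hr h 2
    simp only [if_true, Fin.val_zero, Fin.val_one, Fin.val_two] at e0 e1 e2
    have hq1 : (ρ s).p h / D ≤ (ρ t).p h / D + 1 := by
      calc (ρ s).p h / D ≤ ((ρ t).p h + D) / D := Nat.div_le_div_right a1
        _ = (ρ t).p h / D + 1 := Nat.add_div_right _ hDpos
    have hq2 : (ρ t).p h / D ≤ (ρ s).p h / D + 1 := by
      calc (ρ t).p h / D ≤ ((ρ s).p h + D) / D := Nat.div_le_div_right a2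
        _ = (ρ s).p h / D + 1 := Nat.add_div_right _ hDpos
    omega
  have houtt : ∀ i, Out (C.U (hat k P P' b) r) (C.zone (List.ofFn (hat k P P' b r)))
      ((ρ t).p i) := by
    intro i
    by_cases hi : i = h
    · subst hi; exact hout t le_rfl (by omega)
    · apply out_of_block
      rw [← hD]
      have e0 := hr i 0
      simpa [hi] using e0
  have houtm : ∀ i, Out (C.U (hat k P P' b) r) (C.zone (List.ofFn (hat k P P' b r)))
      ((ρ (t + m)).p i) := by
    intro i
    by_cases hi : i = h
    · subst hi; exact hout (t + m) (by omega) le_rfl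
    · apply out_of_block
      rw [← hD]
      have e1 := hr i 1
      simpa [hi] using e1
  refine ⟨r, ?_⟩
  intro b' hb'
  obtain ⟨hU, hU'⟩ := C.U_congr (hat k P P' b) (hat k P P' b') r
    (fun j hj => hat_congr k P P' b b' j (hb' j hj))
  show Relation.ReflTransGen (M.Step (C.W (hat k P P' b'))) (ρ t) (ρ (t + m))
  rw [C.W_split (hat k P P' b') r, ← hU, ← hU']
  refine hSLOW (Fin 4) Q M (C.U (hat k P P' b) r) (C.zone (List.ofFn (hat k P P' b r)))
    (C.zone (List.ofFn (hat k P P' b' r))) (C.U' (hat k P P' b) r) (C.U_ne _ _)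
    (by rw [C.zone_length, C.zone_length]; simp) ?_ d ?_ h ρ t m ?_ hout houtt houtm hm
  · rw [C.zone_length, List.length_ofFn]
    exact Nat.mul_pos hNN (by omega)
  · intro TT hG e s x y hxy hB
    have e1 : C.zone (List.ofFn (hat k P P' b r)) =
        (((P ++ List.ofFn (b r) ++ P').map (fun x => C.zone (blk k x))).flatten) := by
      rw [hHAT k P P' (3 * 2 + 1) N b r hk, zone_ex]
    have e2 : C.zone (List.ofFn (hat k P P' b' r)) =
        (((P ++ List.ofFn (b' r) ++ P').map (fun x => C.zone (blk k x))).flatten) := by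
      rw [hHAT k P P' (3 * 2 + 1) N b' r hk, zone_ex]
    rw [e1] at hB
    rw [e2]
    have hl : ∀ x, (C.zone (blk k x)).length = k * (C.x₁.length + 1) := by
      intro x
      rw [C.zone_length, row_blk_length k hk]
    refine hGB Q (Fin 4) (fun x => C.zone (blk k x)) ?_ ?_ ?_ hidem TT hG d _ _
      (hrel (List.ofFn (b r)) (List.ofFn (b' r))) e s x y hxy hB
    · show 1 ≤ (C.zone (blk k true)).length
      rw [hl]
      exact Nat.mul_pos (by omega) (by omega)
    · show (C.zone (blk k false)).length = (C.zone (blk k true)).length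
      rw [hl, hl]
    · exact C.beh_zone _ _ (by rw [row_blk_length k hk, row_blk_length k hk])
  · intro s hs hs'
    rw [← C.W_split (hat k P P' b) r]
    exact hst s (by omega)

theorem t_GAP : S_GAP := by
  intro Q C k P P' M N b ρ T hk hN hst hpos t t' htt ht' hmark
  obtain ⟨m, rfl⟩ := Nat.exists_eq_add_of_le htt
  have hNN : 1 ≤ (P.length + N + P'.length) * k := Nat.mul_pos (by omega) (by omega)
  obtain ⟨r, hr⟩ := Pool.Agent.H38R3.MH.gap C M hNN (hat k P P' b) t m
    (fun s hs hs' => hst s (by omega)) (hpos t (by omega)) hmark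
  refine ⟨r, ?_⟩
  intro b' hb'
  have h1 := phase_indep C M r (ρ t) (ρ (t + m)) (hat k P P' b) (hat k P P' b')
    (fun j hj => hat_congr k P P' b b' j (hb' j hj)) hr
  have h2 := Free.sound h1
  rw [← C.W_split (hat k P P' b') r] at h2
  exact h2

end Pool.Agent.TH431.RB
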