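import Pool.Agent.TH431.RB.CHAIN
import Pool.Agent.TH431.RB.ROW

/-!
# Splittings into short pieces and pieces with one slow head
-/

set_option autoImplicit false

namespace Pool.Agent.TH431.RB

open Pool.Agent.H867R4
open Pool.Agent.H38R3.MH (Mark)

/-- a splitting of the time up to `T` into `I` pieces, each of which has at most `n` steps, or at
most `d` moves of some head -/
def SPieces {k : ℕ} {Q : Type} (n d T I : ℕ) (ρ : ℕ → NCfg k Q) : Prop :=
  ∃ τ : ℕ → ℕ, τ 0 = 0 ∧ τ I = T ∧ ∀ j < I, τ j ≤ τ (j + 1) ∧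
    (τ (j + 1) ≤ τ j + n ∨ ∃ h : Fin k, mvs ρ h (τ j) (τ (j + 1)) ≤ d)

theorem t_SHORT (Q : Type) (C : Code Q) (k : ℕ) (P P' : List Bool)
    (M : NMach (Fin 4) 2 Q) (N : ℕ) (b : Fin (3 * 2 + 1) → Fin N → Bool)
    (ρ : ℕ → NCfg 2 Q) (T : ℕ)
    (hst : ∀ s, s < T → M.Step (C.W (hat k P P' b)) (ρ s) (ρ (s + 1)))
    (hpos : ∀ s, s ≤ T → ∀ i, (ρ s).p i ≤ (C.W (hat k P P' b)).length + 1)
    (t t' : ℕ) (htt : t ≤ t') (ht' : t' ≤ T)
    (hm : t' ≤ t + (P.length + N + P'.length) * k * (C.x₁.length + 1)) :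
    ∃ r, Ph (fun b => C.W (hat k P P' b)) M b r (ρ t) (ρ t') := by
  obtain ⟨m, rfl⟩ := Nat.exists_eq_add_of_le htt
  obtain ⟨r, hr⟩ := phase_short C M (hat k P P' b) t m (by omega)
    (fun s hs hs' => hst s (by omega)) (hpos t (by omega))
  refine ⟨r, ?_⟩
  intro b' hb'
  have h1 := phase_indep C M r (ρ t) (ρ (t + m)) (hat k P P' b) (hat k P P' b')
    (fun j hj => hat_congr k P P' b b' j (hb' j hj)) hr
  have h2 := Free.sound h1
  rw [← C.W_split (hat k P P' b') r] at h2
  exact h2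

section

variable {k : ℕ} {Q : Type} {g N : ℕ} {W : (Fin (g + 1) → Fin N → Bool) → List (Fin 4)}
  {M : NMach (Fin 4) k Q} {K : Finset (NCfg k Q)} {b : Fin (g + 1) → Fin N → Bool}

theorem chain2 {D T ℓ G n I d : ℕ} {ρ : ℕ → NCfg k Q} (hG : n ≤ G * ℓ) (hG1 : 1 ≤ G)
    (hgap : ∀ t t', t ≤ t' → t' ≤ T → (∀ s, t < s → s < t' → ¬ Mark D (ρ s)) →
      ∃ r, Ph W M b r (ρ t) (ρ t'))
    (hshort : ∀ t t', t ≤ t' → t' ≤ T → t' ≤ t + ℓ → ∃ r, Ph W M b r (ρ t) (ρ t'))
    (hslow : ∀ (h : Fin k) (t t' : ℕ), t ≤ t' → t' ≤ T → mvs ρ h t t' ≤ d →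
      ∃ r, Ph W M b r (ρ t) (ρ t'))
    (hK : ∀ s, s ≤ T → Mark D (ρ s) → ρ s ∈ K) (h0 : ρ 0 ∈ K) (hF : (ρ T).q ∈ M.F)
    (hP : SPieces n d T I ρ) : Acc W M K b (2 * G * I) (ρ 0) := by
  obtain ⟨τ, ht0, htI, htj⟩ := hP
  have hmono : ∀ j, j ≤ I → τ j ≤ T := by
    have key : ∀ d j, j + d = I → τ j ≤ T := by
      intro d
      induction d with
      | zero => intro j hj; rw [← htI, ← hj]; simp
      | succ d ih => intro j hj; exact (htj j (by omega)).1.trans (ih (j + 1) (by omega))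
    intro j hj
    obtain ⟨d, hd⟩ := Nat.exists_eq_add_of_le hj
    exact key d j hd.symm
  -- short segments
  have hseg : ∀ (G' R a m : ℕ), a + m ≤ T → m ≤ G' * ℓ →
      (∀ t', t' ≤ a + m → ρ t' ∈ K → (∀ s, t' < s → s < a + m → ¬ Mark D (ρ s)) →
        Acc W M K b R (ρ t')) →
      ∀ t, t ≤ a → ρ t ∈ K → (∀ s, t < s → s < a → ¬ Mark D (ρ s)) →
        Acc W M K b (2 * G' + R) (ρ t) := by
    intro G'
    induction G' with
    | zero =>
      intro R a m _ hm hnext t hta htK htm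
      have : m = 0 := by omega
      subst this
      rw [Nat.mul_zero, Nat.zero_add]
      exact hnext t (by omega) htK (by simpa using htm)
    | succ G' ih =>
      intro R a m htm hm hnext t hta htK htmm
      have e : 2 * (G' + 1) + R = 2 + (2 * G' + R) := by ring
      rw [e]
      have hsh : ∀ m', m' ≤ ℓ → a + m' ≤ T → ∀ f l, a ≤ f → f ≤ l → l ≤ a + m' →
          ∃ r, Ph W M b r (ρ f) (ρ l) := by
        intro m' hm' ham f l hf hfl hl
        exact hshort f l hfl (by omega) (by omega)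
      by_cases hmℓ : m ≤ ℓ
      · refine chain_piece_step hgap hK (a := a) (a' := a + m) (by omega) htm (hsh m hmℓ htm) ?_
          hta htK htmm
        intro t' ht' ht'K ht'm
        exact ih R (a + m) 0 (by omega) (by omega) (by simpa using hnext) t' ht' ht'K ht'm
      · refine chain_piece_step hgap hK (a := a) (a' := a + ℓ) (by omega) (by omega)
          (hsh ℓ le_rfl (by omega)) ?_ hta htK htmm
        intro t' ht' ht'K ht'm
        have e2 : (G' + 1) * ℓ = G' * ℓ + ℓ := by ring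
        refine ih R (a + ℓ) (m - ℓ) (by omega) (by omega) ?_ t' ht' ht'K ht'm
        rw [show a + ℓ + (m - ℓ) = a + m by omega]
        exact hnext
  have key : ∀ d' j, j + d' = I → ∀ t, t ≤ τ j → ρ t ∈ K →
      (∀ s, t < s → s < τ j → ¬ Mark D (ρ s)) → Acc W M K b (2 * G * d') (ρ t) := by
    intro d'
    induction d' with
    | zero =>
      intro j hj t ht htK htm
      have : j = I := by omega
      rw [this, htI] at ht htm
      rw [Nat.mul_zero]
      obtain ⟨r, hr⟩ := hgap t T ht le_rfl htm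
      exact ⟨r, ρ T, hF, hr⟩
    | succ d' ih =>
      intro j hj t ht htK htm
      have hnext := ih (j + 1) (by omega)
      obtain ⟨hle, hor⟩ := htj j (by omega)
      have hjT := hmono (j + 1) (by omega)
      obtain ⟨m, hm⟩ := Nat.exists_eq_add_of_le hle
      rcases hor with hor | ⟨h, hor⟩
      · have e : 2 * G * (d' + 1) = 2 * G + 2 * G * d' := by ring
        rw [e]
        refine hseg G (2 * G * d') (τ j) m (by omega) (by omega) (by rw [← hm]; exact hnext) t ht
          htK htm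
      · obtain ⟨G', rfl⟩ : ∃ G', G = G' + 1 := ⟨G - 1, by omega⟩
        have e3 : 2 * (G' + 1) * (d' + 1) = 2 + (2 * G' + 2 * (G' + 1) * d') := by ring
        rw [e3]
        refine chain_piece_step hgap hK hle hjT ?_ ?_ ht htK htm
        · intro f l hf hfl hl
          apply hslow h f l hfl (hl.trans hjT)
          have e1 := chain_mvs_add ρ h hf (hfl.trans hl)
          have e2 := chain_mvs_add ρ h hfl hl
          omega
        · intro t' ht' ht'K ht'm
          exact Acc.mono_add' ht'K (hnext t' ht' ht'K ht'm) _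
  exact key I 0 (by omega) 0 (by omega) h0 (by
    intro s hs hs'
    rw [ht0] at hs'
    omega)

/-- Cutting into pieces with at most `d` moves of head `h`. -/
theorem spieces_of_mvs (ρ : ℕ → NCfg k Q) (h : Fin k) {d T : ℕ} (n : ℕ) (hd : 1 ≤ d) :
    SPieces n d T (mvs ρ h 0 T / d + 1) ρ := by
  classical
  obtain ⟨m, hm⟩ : ∃ m, m = mvs ρ h 0 T := ⟨_, rfl⟩
  obtain ⟨τ, hτ⟩ : ∃ τ : ℕ → ℕ, τ = fun j => if j = 0 then 0 else
      Nat.findGreatest (fun s => mvs ρ h 0 s ≤ j * d) T := ⟨_, rfl⟩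
  have hP0 : ∀ j, mvs ρ h 0 0 ≤ j * d := by intro j; rw [chain_mvs_self]; exact Nat.zero_le _
  have hτT : ∀ j, τ j ≤ T := by
    intro j
    rw [hτ]
    by_cases hj : j = 0
    · simp [hj]
    · simp only [hj, if_false]; exact Nat.findGreatest_le _
  have hτ1 : ∀ j, mvs ρ h 0 (τ j) ≤ j * d := by
    intro j
    rw [hτ]
    by_cases hj : j = 0
    · simp [hj, chain_mvs_self]
    · simp only [hj, if_false]
      exact Nat.findGreatest_spec (P := fun s => mvs ρ h 0 s ≤ j * d) (Nat.zero_le T) (hP0 j)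
  have hτ2 : ∀ j, j ≠ 0 → ∀ s, s ≤ T → mvs ρ h 0 s ≤ j * d → s ≤ τ j := by
    intro j hj s hs hs'
    rw [hτ]
    simp only [hj, if_false]
    exact Nat.le_findGreatest (P := fun s => mvs ρ h 0 s ≤ j * d) hs hs'
  refine ⟨τ, by rw [hτ]; simp, ?_, ?_⟩
  · refine le_antisymm (hτT _) (hτ2 (mvs ρ h 0 T / d + 1) (Nat.succ_ne_zero _) T le_rfl ?_)
    show mvs ρ h 0 T ≤ (mvs ρ h 0 T / d + 1) * d
    rw [← hm]
    have h1 : m % d < d := Nat.mod_lt _ (by omega)
    have h2 := Nat.div_add_mod m d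
    have h3 : (m / d + 1) * d = d * (m / d) + d := by ring
    omega
  · intro j _
    have hle : τ j ≤ τ (j + 1) := by
      apply hτ2 (j + 1) (by omega) _ (hτT j)
      have := hτ1 j
      have e : (j + 1) * d = j * d + d := by ring
      omega
    refine ⟨hle, Or.inr ⟨h, ?_⟩⟩
    have h1 := hτ1 (j + 1)
    have h2 := chain_mvs_add ρ h (Nat.zero_le (τ j)) hle
    have e : (j + 1) * d = j * d + d := by ring
    by_cases hj : j = 0
    · subst hj
      have h3 : τ 0 = 0 := by rw [hτ]; simp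
      rw [h3] at h2 ⊢
      omega
    · by_cases hT : τ j = T
      · have h3 : τ (j + 1) = T := le_antisymm (hτT _) (hT ▸ hle)
        rw [hT, h3, chain_mvs_self]
        exact Nat.zero_le _
      · have h3 : ¬ mvs ρ h 0 (τ j + 1) ≤ j * d := by
          intro h4
          have := hτ2 j hj (τ j + 1) (by have := hτT j; omega) h4
          omega
        have h4 := chain_mvs_add ρ h (Nat.zero_le (τ j)) (Nat.le_succ (τ j))
        have h5 := chain_mvs_one ρ h (τ j)
        simp only [Nat.succ_eq_add_one] at h4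
        omega

end

end Pool.Agent.TH431.RB
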