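import Pool.Agent.H38R3.MH.Final

/-!
# Two-head automata in which one head moves slowly: definitions
-/

set_option autoImplicit false

namespace Pool.Agent.TH431.RB

open Pool.Agent.H867R4
open Pool.Agent.H541R2 (gsign theLang mu)

/-- the stages (second component of the state) grow by steps of zero or one -/
def Graded {Q α : Type} (T : Table (Q × ℕ) α) : Prop :=
  ∀ (x : Q × ℕ) (c : Cell α) (z : (Q × ℕ) × Fin 3), z ∈ T x c → z.1.2 = x.2 ∨ z.1.2 = x.2 + 1

/-- the pattern of a marked list of bits: the marked bits, and `none` for every maximal stretch of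
unmarked bits -/
def col : List (Bool × Bool) → List (Option Bool)
  | [] => []
  | (c, true) :: l => some c :: col l
  | (_, false) :: l =>
    match col l with
    | none :: r => none :: r
    | r => none :: r

/-- every marking of `l` with at most `d` marks has the same pattern as some marking of `l'` -/
def Rel (d : ℕ) (l l' : List Bool) : Prop :=
  ∀ μ : List (Bool × Bool), μ.map Prod.fst = l → μ.countP (fun p => p.2) ≤ d →
    ∃ μ' : List (Bool × Bool), μ'.map Prod.fst = l' ∧ col μ' = col μ

/-- the block of a bit: the bit followed by `k - 1` zeros -/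
def blk (k : ℕ) (x : Bool) : List Bool := x :: List.replicate (k - 1) false

/-- a list of bits, every bit replaced by its block -/
def ex (k : ℕ) (l : List Bool) : List Bool := (l.map (blk k)).flatten

/-- the matrix whose rows are the rows of `b` between `P` and `P'`, every bit replaced by its block -/
def hat (k : ℕ) (P P' : List Bool) {g N : ℕ} (b : Fin g → Fin N → Bool) :
    Fin g → Fin ((P.length + N + P'.length) * k) → Bool :=
  fun i j => (ex k (P ++ List.ofFn (b i) ++ P')).getD j.val false

/-- the configuration `d` can be reached from `c`, whatever the row `r` is -/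
def Ph {k : ℕ} {Q : Type} {g N : ℕ} (W : (Fin g → Fin N → Bool) → List (Fin 4))
    (M : NMach (Fin 4) k Q) (b : Fin g → Fin N → Bool) (r : Fin g) (c d : NCfg k Q) : Prop :=
  ∀ b' : Fin g → Fin N → Bool, (∀ j, j ≠ r → b' j = b j) →
    Relation.ReflTransGen (M.Step (W b')) c d

/-- acceptance along a chain of `R` phases through configurations in `K` and a last phase -/
def Acc {k : ℕ} {Q : Type} {g N : ℕ} (W : (Fin g → Fin N → Bool) → List (Fin 4))
    (M : NMach (Fin 4) k Q) (K : Finset (NCfg k Q)) (b : Fin g → Fin N → Bool) :
    ℕ → NCfg k Q → Prop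
  | 0, c => ∃ r : Fin g, ∃ d, d.q ∈ M.F ∧ Ph W M b r c d
  | (R + 1), c => ∃ r : Fin g, ∃ d ∈ K, Ph W M b r c d ∧ Acc W M K b R d

/-- the number of moves of head `h` between the times `t` and `t'` -/
def mvs {k : ℕ} {Q : Type} (ρ : ℕ → NCfg k Q) (h : Fin k) (t t' : ℕ) : ℕ :=
  ((Finset.Ico t t').filter (fun s => (ρ (s + 1)).p h ≠ (ρ s).p h)).card

/-- the table on marked letters: stages may only grow at marked letters -/
def mkT {Q α : Type} (T : Table (Q × ℕ) α) : Table (Q × ℕ) (α × Bool) := fun x c =>
  {z | z ∈ T x (c.1, c.2.map Prod.fst) ∧ ((∃ a, c.2 = some (a, true)) ∨ z.1.2 = x.2)}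

/-- the marked word of a marked list of bits with the code `v` -/
def wd {α : Type} (v : Bool → List α) (μ : List (Bool × Bool)) : List (α × Bool) :=
  (μ.map (fun p => (v p.1).map (fun a => (a, p.2)))).flatten

end Pool.Agent.TH431.RB
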