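import Pool.Agent.TH431.RB.Chain2

set_option autoImplicit false

namespace Pool.Agent.TH431.RB

open Finset
open Pool.Agent.H867R4
open Pool.Agent.H38R3.MH (Mark mcfgs mcfgs_card mem_mcfgs)
open Pool.Agent.H541R2 (rd mv gsign mu mu_nonneg mu_lt_one sign_card num_aux theLang)

/-- The strong form: splittings into pieces with at most `n` steps or at most `c log n` moves of
some head. -/
theorem strong (hPAD : S_PAD) (hIDEM : S_IDEM) (hHAT2 : S_HAT2) (hCARD : S_CARD)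
    (hROW : S_ROW) (Q : Type) [Fintype Q] : ∃ c : ℝ, 0 < c ∧ ∀ n₀ : ℕ, ∃ n : ℕ, n₀ ≤ n ∧
    ∀ (M : NMach (Fin 4) 2 Q),
    (∀ w : List (Fin 4), w.length = n → (w ∈ theLang ↔ M.Accepts w)) →
    ∃ w : List (Fin 4), w.length = n ∧ w ∈ theLang ∧ ∀ (T d I : ℕ) (ρ : ℕ → NCfg 2 Q),
      M.AccRun w T ρ → (d : ℝ) ≤ c * Real.log n → SPieces n d T I ρ → c * (n : ℝ) ≤ I := by
  classical
  by_cases hQ : Nonempty Q
  swap
  · refine ⟨1, one_pos, fun n₀ => ⟨n₀, le_rfl, fun M => ?_⟩⟩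
    exact absurd ⟨M.q₀⟩ hQ
  obtain ⟨C⟩ := exists_code Q
  obtain ⟨k, hk1, hidem⟩ := hIDEM Q C
  obtain ⟨V, hV⟩ : ∃ V, V = C.x₁.length + 1 := ⟨_, rfl⟩
  have hV1 : 1 ≤ V := by omega
  obtain ⟨g, hg⟩ : ∃ g, g = 3 * 2 := ⟨_, rfl⟩
  obtain ⟨μ', hμ'⟩ : ∃ μ' : ℝ, μ' = max (mu g) (1 / 2) := ⟨_, rfl⟩
  have hμ'1 : μ' < 1 := by rw [hμ']; exact max_lt (mu_lt_one g) (by norm_num)
  have hμ'0 : 0 < μ' := by rw [hμ']; exact lt_of_lt_of_le (by norm_num) (le_max_right _ _)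
  obtain ⟨lam, hlam⟩ : ∃ lam : ℝ, lam = -Real.log μ' := ⟨_, rfl⟩
  have hlam0 : 0 < lam := by
    have := Real.log_neg hμ'0 hμ'1
    linarith
  have hkR : (1 : ℝ) ≤ k := by exact_mod_cast hk1
  have hVR : (1 : ℝ) ≤ V := by exact_mod_cast hV1
  obtain ⟨C4, hC4⟩ : ∃ C4 : ℝ, C4 = (g + 2) * (2 * k * V + 1) := ⟨_, rfl⟩
  have hC40 : 0 < C4 := by rw [hC4]; positivity
  have hC41 : 1 ≤ C4 := by
    rw [hC4]
    have h1 : (0 : ℝ) ≤ g := by positivity
    have h2 : (0 : ℝ) ≤ 2 * k * V := by positivity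
    nlinarith
  obtain ⟨q, hq⟩ : ∃ q : ℝ, q = Fintype.card Q := ⟨_, rfl⟩
  have hq1 : 1 ≤ q := by
    rw [hq]
    exact_mod_cast Fintype.card_pos
  obtain ⟨C5, hC5⟩ : ∃ C5 : ℝ, C5 = q * (2 * ((g + 3) * (C4 + 2))) := ⟨_, rfl⟩
  have hC50 : 0 < C5 := by rw [hC5]; positivity
  obtain ⟨x, hx⟩ : ∃ x : ℝ, x = min 1 (lam / (4 * (g + 1) ^ 2 * C5)) := ⟨_, rfl⟩
  have hx0 : 0 < x := by rw [hx]; exact lt_min one_pos (by positivity)
  have hx1 : x ≤ 1 := by rw [hx]; exact min_le_left _ _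
  have hx2 : (g + 1 : ℝ) ^ 2 * x * C5 ≤ lam / 4 := by
    have h1 : x ≤ lam / (4 * (g + 1) ^ 2 * C5) := by rw [hx]; exact min_le_right _ _
    rw [le_div_iff₀ (by positivity)] at h1
    linarith
  obtain ⟨Lx, hLx⟩ : ∃ Lx : ℝ, Lx = -Real.log x + 1 := ⟨_, rfl⟩
  have hlogx : Real.log x ≤ 0 := Real.log_nonpos hx0.le hx1
  have hLx0 : 0 < Lx := by rw [hLx]; linarith
  have hlog16 : 0 < Real.log 16 := Real.log_pos (by norm_num)
  have hlogC4 : 0 ≤ Real.log C4 := Real.log_nonneg hC41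
  obtain ⟨C6, hC6⟩ : ∃ C6 : ℝ, C6 = Real.log C4 + 3 * Real.log 16 := ⟨_, rfl⟩
  have hC60 : 0 < C6 := by rw [hC6]; linarith
  obtain ⟨G, hG⟩ : ∃ G : ℕ, G = 2 * (g + 2) := ⟨_, rfl⟩
  have hG1 : 1 ≤ G := by omega
  have hG0 : (0 : ℝ) < G := by exact_mod_cast hG1
  refine ⟨min (1 / C6) (lam / (8 * C4 * Lx * (2 * G))), lt_min (by positivity) (by positivity),
    fun n₀ => ?_⟩
  -- choose `N`
  have hev : ∀ᶠ N : ℕ in Filter.atTop, (Real.sqrt μ') ^ N < 1 / 4 ∧ μ' ^ N < 1 / 2 ∧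
      n₀ ≤ N ∧ 256 ≤ N ∧ 24 * Lx / lam ≤ (N : ℝ) := by
    have hs : Real.sqrt μ' < 1 := by
      rw [Real.sqrt_lt' one_pos]; simpa using hμ'1
    have t1 := tendsto_pow_atTop_nhds_zero_of_lt_one (Real.sqrt_nonneg μ') hs
    have t2 := tendsto_pow_atTop_nhds_zero_of_lt_one hμ'0.le hμ'1
    filter_upwards [t1.eventually (gt_mem_nhds (show (0:ℝ) < 1/4 by norm_num)),
      t2.eventually (gt_mem_nhds (show (0:ℝ) < 1/2 by norm_num)),
      Filter.eventually_ge_atTop n₀, Filter.eventually_ge_atTop 256,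
      tendsto_natCast_atTop_atTop.eventually_ge_atTop (24 * Lx / lam)] with N a1 a2 a3 a4 a5
    exact ⟨a1, a2, a3, a4, a5⟩
  obtain ⟨N, hN1, hN2, hN3, hN4, hN5⟩ := hev.exists
  -- the parameter `d` and the paddings
  have hlogN : 2 ≤ Nat.log 16 N := by
    apply Nat.le_log_of_pow_le (by norm_num)
    norm_num
    exact hN4
  obtain ⟨d, hd⟩ : ∃ d, Nat.log 16 N = d + 1 := ⟨Nat.log 16 N - 1, by omega⟩
  have hd1 : 1 ≤ d := by omega
  have hdN : 16 ^ (d + 1) ≤ N := by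
    rw [← hd]
    exact Nat.pow_log_le_self 16 (by omega)
  have hdN2 : N < 16 ^ (d + 2) := by
    have := Nat.lt_pow_succ_log_self (b := 16) (by norm_num) N
    rw [hd] at this
    exact this
  obtain ⟨P, P', hPlen, hP⟩ := hPAD d
  obtain ⟨N', hN'⟩ : ∃ N', N' = (P.length + N + P'.length) * k := ⟨_, rfl⟩
  have hNN' : N ≤ N' := by
    rw [hN']
    calc N ≤ P.length + N + P'.length := by omega
      _ ≤ _ := Nat.le_mul_of_pos_right _ (by omega)
  have hN'N : N' ≤ 2 * N * k := by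
    rw [hN']
    apply Nat.mul_le_mul_right
    omega
  have hddN : d ≤ N := by
    have h1 : d + 1 < 16 ^ (d + 1) := Nat.lt_pow_self (by norm_num)
    omega
  obtain ⟨n, hn⟩ : ∃ n, n = (g + 2) * (N' * V + 1) - 1 := ⟨_, rfl⟩
  have hn1 : n + 1 = (g + 2) * (N' * V + 1) := by
    have : 1 ≤ (g + 2) * (N' * V + 1) := Nat.one_le_iff_ne_zero.mpr (by positivity)
    omega
  have hNV : N' ≤ N' * V := Nat.le_mul_of_pos_right _ (by omega)
  have hnN : N ≤ n := by
    have h1 : N' * V + 1 ≤ (g + 2) * (N' * V + 1) := Nat.le_mul_of_pos_left _ (by omega)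
    omega
  have hnG : n ≤ G * (N' * V) := by
    have h1 : (g + 2) * (N' * V + 1) ≤ (g + 2) * (N' * V + N' * V) :=
      Nat.mul_le_mul_left _ (by omega)
    have h2 : (g + 2) * (N' * V + N' * V) = G * (N' * V) := by rw [hG]; ring
    omega
  refine ⟨n, by omega, ?_⟩
  intro M hM
  have hN1' : (1 : ℝ) ≤ N := by
    have : 1 ≤ N := by omega
    exact_mod_cast this
  have hnC : (n : ℝ) ≤ C4 * N := by
    have h1 : (n : ℝ) + 1 = (g + 2) * (N' * V + 1) := by exact_mod_cast hn1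
    have h2 : (N' : ℝ) ≤ 2 * N * k := by exact_mod_cast hN'N
    have h3 : ((g : ℝ) + 2) * (N' * V + 1) ≤ (g + 2) * (2 * N * k * V + N) := by gcongr
    have h4 : ((g : ℝ) + 2) * (2 * N * k * V + N) = C4 * N := by rw [hC4]; ring
    linarith
  obtain ⟨K, hK⟩ : ∃ K, K = mcfgs (Q := Q) (N' * V + 1) (g + 3) n := ⟨_, rfl⟩
  have hKcard : (K.card : ℝ) ≤ C5 * N := by
    have h1 := mcfgs_card (Q := Q) (N' * V + 1) (g + 3) n
    rw [← hK] at h1
    have h2 : (K.card : ℝ) ≤ q * (2 * ((g + 3) * (n + 2))) := by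
      rw [hq]; exact_mod_cast h1
    have h3 : (n : ℝ) + 2 ≤ (C4 + 2) * N := by
      have : (C4 + 2) * (N : ℝ) = C4 * N + 2 * N := by ring
      linarith
    calc (K.card : ℝ) ≤ q * (2 * ((g + 3) * (n + 2))) := h2
      _ ≤ q * (2 * ((g + 3) * ((C4 + 2) * N))) := by gcongr
      _ = C5 * N := by rw [hC5]; ring
  -- number of phases
  have h24 : 24 * Lx ≤ N * lam := by
    rw [div_le_iff₀ hlam0] at hN5
    exact hN5
  obtain ⟨R, hR1, hR2⟩ : ∃ R : ℕ, ((R : ℝ) + 1) * Lx ≤ N * lam / 4 ∧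
      (N * lam / 4 : ℝ) ≤ (R + 2) * Lx := by
    have hge : 1 ≤ ⌊(N * lam / 4) / Lx⌋₊ := by
      rw [Nat.one_le_floor_iff, le_div_iff₀ hLx0]
      linarith
    obtain ⟨R, hR⟩ := Nat.exists_eq_add_of_le hge
    refine ⟨R, ?_, ?_⟩
    · have := Nat.floor_le (a := (N * lam / 4) / Lx) (by positivity)
      rw [le_div_iff₀ hLx0, hR] at this
      push_cast at this
      linarith
    · have := (Nat.lt_floor_add_one ((N * lam / 4) / Lx)).le
      rw [div_le_iff₀ hLx0, hR] at this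
      push_cast at this
      linarith
  subst hg
  obtain ⟨W, hW⟩ : ∃ W : (Fin (3 * 2 + 1) → Fin N → Bool) → List (Fin 4),
      W = fun b => C.W (hat k P P' b) := ⟨_, rfl⟩
  have hlenW : ∀ b : Fin (3 * 2 + 1) → Fin N → Bool, (C.W (hat k P P' b)).length = n := by
    intro b
    have := C.W_length (hat k P P' b)
    obtain ⟨L, hL⟩ : ∃ L, L = (C.W (hat k P P' b)).length := ⟨_, rfl⟩
    rw [← hL] at this ⊢
    rw [← hV, ← hN'] at this
    have e : (3 * 2 + 1 + 1) * (N' * V + 1) = (3 * 2 + 2) * (N' * V + 1) := by ring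
    omega
  have hlenW' : ∀ b : Fin (3 * 2 + 1) → Fin N → Bool, (W b).length = n := by
    intro b; rw [hW]; exact hlenW b
  have hDJ : n + 1 < (3 * 2 + 3) * (N' * V + 1) := by
    have : (3 * 2 + 3) * (N' * V + 1) = (3 * 2 + 2) * (N' * V + 1) + (N' * V + 1) := by ring
    omega
  have hKmem : ∀ (c : NCfg 2 Q), (∀ i, c.p i ≤ n + 1) → Mark (N' * V + 1) c → c ∈ K := by
    intro c hc hm
    rw [hK]
    exact mem_mcfgs hDJ hc hm
  have hinit : (⟨M.q₀, fun _ => 0⟩ : NCfg 2 Q) ∈ K :=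
    hKmem _ (fun i => Nat.zero_le _) ⟨0, dvd_zero _⟩
  -- the sign
  obtain ⟨κ, hκ, hsign⟩ := hHAT2 k P P' (3 * 2) N hk1
  obtain ⟨σ, hσ⟩ : ∃ σ : ℝ, σ = -κ := ⟨_, rfl⟩
  have hσ1 : σ = 1 ∨ σ = -1 := by
    rcases hκ with h | h
    · right; rw [hσ, h]
    · left; rw [hσ, h]; norm_num
  have hσabs : |σ| = 1 := by
    rcases hσ1 with h | h <;> rw [h] <;> norm_num
  have hmem : ∀ b : Fin (3 * 2 + 1) → Fin N → Bool, W b ∈ theLang ↔ gsign Finset.univ b = σ := by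
    intro b
    rw [hW]
    show C.W (hat k P P' b) ∈ theLang ↔ _
    rw [W_mem C, hsign b, hσ]
    rcases hκ with h | h <;> rw [h]
    · rw [one_mul]
    · constructor
      · intro h1; linarith
      · intro h1; linarith
  -- a good matrix exists
  have hgood : ∃ b : Fin (3 * 2 + 1) → Fin N → Bool, gsign Finset.univ b = σ ∧
      ¬ Acc W M K b R (⟨M.q₀, fun _ => 0⟩ : NCfg 2 Q) := by
    by_contra hcon0
    have hcon : ∀ b : Fin (3 * 2 + 1) → Fin N → Bool, gsign Finset.univ b = σ →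
        Acc W M K b R (⟨M.q₀, fun _ => 0⟩ : NCfg 2 Q) := by
      intro b hb
      by_contra hh
      exact hcon0 ⟨b, hb, hh⟩
    have h5 := hCARD 2 Q (3 * 2) N W M K (⟨M.q₀, fun _ => 0⟩ : NCfg 2 Q) hinit σ hσabs R (by
        rintro b ⟨d, hd1, hd2⟩
        rw [← hmem, hM _ (hlenW' b)]
        exact accepts_of_reach M _ hd1 hd2) x hx0 hx1
    obtain ⟨Y, hY⟩ : ∃ Y : ℝ, Y = ((Set.ncard {b : Fin (3 * 2 + 1) → Fin N → Bool |
        Acc W M K b R (⟨M.q₀, fun _ => 0⟩ : NCfg 2 Q)} : ℕ) : ℝ) := ⟨_, rfl⟩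
    have h4 : (2 ^ N : ℝ) ^ (3 * 2 + 1) * (1 - (mu (3 * 2)) ^ N) / 2 ≤ Y := by
      refine (sign_card (3 * 2) N σ hσ1).trans ?_
      rw [hY]
      apply Nat.cast_le.mpr
      rw [← Set.ncard_coe_finset]
      apply Set.ncard_le_ncard _ (Set.toFinite _)
      intro b hb
      simp only [Finset.coe_filter, Finset.mem_univ, true_and, Set.mem_setOf_eq] at hb
      exact hcon b hb
    rw [← hY] at h5
    have hmu0 := mu_nonneg (3 * 2)
    have h6 : (mu (3 * 2)) ^ N ≤ μ' ^ N := pow_le_pow_left₀ hmu0 (by rw [hμ']; exact le_max_left _ _) N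
    have hxpow : Real.exp (-(N * lam / 4)) ≤ x ^ (R + 1) := by
      have e1 : x ^ (R + 1) = Real.exp ((R + 1 : ℕ) * Real.log x) := by
        rw [← Real.log_pow, Real.exp_log (by positivity)]
      rw [e1]
      apply Real.exp_le_exp.mpr
      push_cast
      have h7 : ((R : ℝ) + 1) * (-Real.log x) ≤ ((R : ℝ) + 1) * Lx := by
        apply mul_le_mul_of_nonneg_left _ (by positivity)
        rw [hLx]; linarith
      linarith
    have hexp : Real.exp ((((3 * 2 : ℕ) : ℝ) + 1) ^ 2 * x * K.card) ≤ Real.exp (N * lam / 4) := by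
      apply Real.exp_le_exp.mpr
      calc (((3 * 2 : ℕ) : ℝ) + 1) ^ 2 * x * K.card ≤ (((3 * 2 : ℕ) : ℝ) + 1) ^ 2 * x * (C5 * N) := by
            gcongr
        _ = ((((3 * 2 : ℕ) : ℝ) + 1) ^ 2 * x * C5) * N := by ring
        _ ≤ (lam / 4) * N := by gcongr
        _ = _ := by ring
    have h8 : Real.exp (N * lam / 2) * μ' ^ N = (Real.sqrt μ') ^ N := by
      have e1 : Real.sqrt μ' = Real.exp (-lam / 2) := by
        rw [Real.sqrt_eq_iff_mul_self_eq hμ'0.le (Real.exp_pos _).le, ← Real.exp_add]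
        have : -lam / 2 + -lam / 2 = Real.log μ' := by rw [hlam]; ring
        rw [this, Real.exp_log hμ'0]
      have e2 : μ' = Real.exp (-lam) := by rw [hlam, neg_neg, Real.exp_log hμ'0]
      rw [e1, ← Real.exp_nat_mul]
      nth_rewrite 1 [e2]
      rw [← Real.exp_nat_mul, ← Real.exp_add]
      congr 1
      ring
    obtain ⟨P₀, hP₀⟩ : ∃ P₀ : ℝ, P₀ = (2 ^ N : ℝ) ^ (3 * 2 + 1) := ⟨_, rfl⟩
    have hP0 : 0 < P₀ := by rw [hP₀]; positivity
    rw [← hP₀] at h4 h5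
    have hY0 : 0 ≤ Y := by rw [hY]; positivity
    have h9 : Y * Real.exp (-(N * lam / 4)) ≤ Real.exp (N * lam / 4) * (P₀ * μ' ^ N) := by
      calc Y * Real.exp (-(N * lam / 4)) ≤ Y * x ^ (R + 1) := by gcongr
        _ ≤ _ := h5
        _ ≤ _ := by gcongr
    have h10 : Y ≤ P₀ * (Real.sqrt μ') ^ N := by
      have h11 : Y = (Y * Real.exp (-(N * lam / 4))) * Real.exp (N * lam / 4) := by
        rw [mul_assoc, ← Real.exp_add, neg_add_cancel, Real.exp_zero, mul_one]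
      rw [h11]
      calc (Y * Real.exp (-(N * lam / 4))) * Real.exp (N * lam / 4)
          ≤ (Real.exp (N * lam / 4) * (P₀ * μ' ^ N)) * Real.exp (N * lam / 4) := by gcongr
        _ = P₀ * ((Real.exp (N * lam / 4) * Real.exp (N * lam / 4)) * μ' ^ N) := by ring
        _ = P₀ * (Real.exp (N * lam / 2) * μ' ^ N) := by
          rw [← Real.exp_add]; congr 3; ring
        _ = _ := by rw [h8]
    exact absurd (h4.trans h10) (not_le.mpr (num_aux hP0 (lt_of_le_of_lt h6 hN2) hN1))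
  obtain ⟨b, hb, hacc⟩ := hgood
  refine ⟨W b, hlenW' b, (hmem b).mpr hb, ?_⟩
  intro T d' I ρ hρ hd' hP'
  obtain ⟨hρ0, hst, hF⟩ := hρ
  have hpos : ∀ t, t ≤ T → ∀ i, (ρ t).p i ≤ (W b).length + 1 := by
    intro t ht i
    have := (pos_close (M := M) (w := W b) (ρ := ρ) (t := 0) t
      (fun s _ hs' => hst s (by omega)) (by rw [hρ0]; intro i; simp) i).2.2
    rwa [Nat.zero_add] at this
  have hst' : ∀ s, s < T → M.Step (C.W (hat k P P' b)) (ρ s) (ρ (s + 1)) := by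
    intro s hs
    have := hst s hs
    rwa [hW] at this
  have hpos' : ∀ s, s ≤ T → ∀ i, (ρ s).p i ≤ (C.W (hat k P P' b)).length + 1 := by
    intro s hs i
    have := hpos s hs i
    rwa [hW] at this
  -- the logarithm
  have hdR : (1 : ℝ) ≤ d := by exact_mod_cast hd1
  have hlogn : Real.log n ≤ C6 * d := by
    have hn0 : (0 : ℝ) < n := by
      have : 1 ≤ n := by omega
      exact_mod_cast this
    have h1 : Real.log n ≤ Real.log (C4 * N) := Real.log_le_log hn0 hnC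
    rw [Real.log_mul hC40.ne' (by positivity)] at h1
    have h2 : Real.log N ≤ (d + 2 : ℕ) * Real.log 16 := by
      rw [← Real.log_pow]
      apply Real.log_le_log (by positivity)
      exact_mod_cast hdN2.le
    push_cast at h2
    rw [hC6]
    nlinarith
  have hn0' : (0 : ℝ) ≤ n := by positivity
  have hn1R : (1 : ℝ) ≤ n := by
    have : 1 ≤ n := by omega
    exact_mod_cast this
  have hdd : d' ≤ d := by
    have h1 : (d' : ℝ) ≤ 1 / C6 * (C6 * d) := by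
      calc (d' : ℝ) ≤ min (1 / C6) (lam / (8 * C4 * Lx * (2 * G))) * Real.log n := hd'
        _ ≤ 1 / C6 * Real.log n := by
            apply mul_le_mul_of_nonneg_right (min_le_left _ _) (Real.log_nonneg hn1R)
        _ ≤ _ := by gcongr
    have h2 : 1 / C6 * (C6 * d) = (d : ℝ) := by field_simp
    rw [h2] at h1
    exact_mod_cast h1
  have hchain := chain2 (W := W) (M := M) (K := K) (b := b) (D := N' * V + 1) (T := T)
    (ℓ := N' * V) (G := G) (n := n) (I := I) (d := d') (ρ := ρ) hnG hG1 (by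
      intro t t' ht ht' hm
      rw [hV, hN'] at hm
      rw [hW]
      exact t_GAP Q C k P P' M N b ρ T hk1 (by omega) hst' hpos' t t' ht ht' hm) (by
      intro t t' ht ht' hm
      rw [hV, hN'] at hm
      rw [hW]
      exact t_SHORT Q C k P P' M N b ρ T hst' hpos' t t' ht ht' hm) (by
      intro h t t' ht ht' hm
      rw [hW]
      refine hROW Q C k hk1 hidem d P P' hP M N b h ρ T (by omega) ?_ hst' hpos' t t' ht ht'
        (hm.trans hdd)
      rw [← hN', ← hV]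
      omega) (by
      intro s hs hm
      apply hKmem _ _ hm
      intro i
      have := hpos s hs i
      rwa [hlenW'] at this) (by rw [hρ0]; exact hinit) hF hP'
  have hRI : R + 1 ≤ 2 * G * I := by
    by_contra hlt
    rw [not_le] at hlt
    apply hacc
    rw [hρ0] at hchain
    obtain ⟨e, he⟩ := Nat.exists_eq_add_of_le (show 2 * G * I ≤ R by omega)
    rw [he, Nat.add_comm (2 * G * I) e]
    exact Acc.mono_add' hinit hchain e
  have hRI' : (R : ℝ) + 1 ≤ 2 * G * I := by exact_mod_cast hRI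
  have hR3 : N * lam / 8 ≤ ((R : ℝ) + 1) * Lx := by
    have : ((R : ℝ) + 2) * Lx ≤ 2 * (((R : ℝ) + 1) * Lx) := by
      have : 0 ≤ (R : ℝ) * Lx := by positivity
      linarith
    linarith
  have hI0 : (0 : ℝ) ≤ I := by positivity
  calc min (1 / C6) (lam / (8 * C4 * Lx * (2 * G))) * (n : ℝ)
      ≤ lam / (8 * C4 * Lx * (2 * G)) * (n : ℝ) := by
        apply mul_le_mul_of_nonneg_right (min_le_right _ _) hn0'
    _ ≤ lam / (8 * C4 * Lx * (2 * G)) * (C4 * N) := by gcongr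
    _ = (N * lam / 8) / (Lx * (2 * G)) := by field_simp
    _ ≤ (((R : ℝ) + 1) * Lx) / (Lx * (2 * G)) := by gcongr
    _ ≤ ((2 * G * I) * Lx) / (Lx * (2 * G)) := by gcongr
    _ = I := by field_simp

end Pool.Agent.TH431.RB
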