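import Pool.Agent.TH431.RB.Defs

set_option autoImplicit false

namespace Pool.Agent.TH431.RB

open Pool.Agent.H867R4
open Pool.Agent.H541R2 (gsign theLang mu)


/-- RB-GB1: marking the blocks in which the stage grows, and forgetting the marks -/
def S_GB1 : Prop := ∀ (Q α : Type) (v : Bool → List α), 1 ≤ (v true).length →
  (v false).length = (v true).length → ∀ T : Table (Q × ℕ) α, Graded T →
  (∀ (l : List Bool) (e s : Bool) (x y : Q × ℕ), Beh ((l.map v).flatten) T e x s y →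
    ∃ μ : List (Bool × Bool), μ.map Prod.fst = l ∧ x.2 ≤ y.2 ∧
      μ.countP (fun p => p.2) ≤ y.2 - x.2 ∧ Beh (wd v μ) (mkT T) e x s y) ∧
  ∀ (μ : List (Bool × Bool)) (e s : Bool) (x y : Q × ℕ), Beh (wd v μ) (mkT T) e x s y →
    Beh (((μ.map Prod.fst).map v).flatten) T e x s y

/-- RB-GB2: the behaviour of a marked word depends on its pattern only -/
def S_GB2 : Prop := ∀ (Q α : Type) (v : Bool → List α), 1 ≤ (v true).length →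
  (v false).length = (v true).length →
  (Beh (v false) : Table Q α → _) = Beh (v true) →
  (Beh (v true ++ v true) : Table Q α → _) = Beh (v true) →
  ∀ T : Table (Q × ℕ) α, ∀ μ μ' : List (Bool × Bool), col μ = col μ' →
    Beh (wd v μ) (mkT T) = Beh (wd v μ') (mkT T)

/-- RB-GB: behaviours with few stages see only few blocks -/
def S_GB : Prop := ∀ (Q α : Type) (v : Bool → List α), 1 ≤ (v true).length →
  (v false).length = (v true).length →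
  (Beh (v false) : Table Q α → _) = Beh (v true) →
  (Beh (v true ++ v true) : Table Q α → _) = Beh (v true) →
  ∀ T : Table (Q × ℕ) α, Graded T → ∀ (d : ℕ) (l l' : List Bool), Rel d l l' →
  ∀ (e s : Bool) (x y : Q × ℕ), y.2 ≤ x.2 + d →
    Beh ((l.map v).flatten) T e x s y → Beh ((l'.map v).flatten) T e x s y

/-- RB-PAD: universal paddings -/
def S_PAD : Prop := ∀ d : ℕ, ∃ P P' : List Bool, P.length + P'.length ≤ 16 ^ (d + 1) ∧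
  ∀ β β' : List Bool, Rel d (P ++ β ++ P') (P ++ β' ++ P')

/-- RB-IDEM -/
def S_IDEM : Prop := ∀ (Q : Type) [Finite Q] (C : Code Q), ∃ k : ℕ, 1 ≤ k ∧
  (Beh (C.zone (blk k true) ++ C.zone (blk k true)) : Table Q (Fin 4) → _) =
    Beh (C.zone (blk k true))

/-- RB-HAT (1) -/
def S_HAT1 : Prop := ∀ (k : ℕ) (P P' : List Bool) (g N : ℕ) (b : Fin g → Fin N → Bool)
  (i : Fin g), 1 ≤ k → List.ofFn (hat k P P' b i) = ex k (P ++ List.ofFn (b i) ++ P')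

/-- RB-HAT (2) -/
def S_HAT2 : Prop := ∀ (k : ℕ) (P P' : List Bool) (g N : ℕ), 1 ≤ k →
  ∃ κ : ℝ, (κ = 1 ∨ κ = -1) ∧ ∀ b : Fin (g + 1) → Fin N → Bool,
    gsign Finset.univ (hat k P P' b) = κ * gsign Finset.univ b

/-- RB-CARD -/
def S_CARD : Prop := ∀ (k : ℕ) (Q : Type) (g N : ℕ)
  (W : (Fin (g + 1) → Fin N → Bool) → List (Fin 4)) (M : NMach (Fin 4) k Q)
  (K : Finset (NCfg k Q)) (c₀ : NCfg k Q), c₀ ∈ K → ∀ (σ : ℝ), |σ| = 1 → ∀ (R : ℕ),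
  (∀ b : Fin (g + 1) → Fin N → Bool,
      (∃ d, Relation.ReflTransGen (M.Step (W b)) c₀ d ∧ d.q ∈ M.F) →
        gsign Finset.univ b = σ) → ∀ x : ℝ, 0 < x → x ≤ 1 →
  ((Set.ncard {b : Fin (g + 1) → Fin N → Bool | Acc W M K b R c₀} : ℕ) : ℝ) * x ^ (R + 1) ≤
    Real.exp ((g + 1 : ℝ) ^ 2 * x * K.card) * ((2 ^ N : ℝ) ^ (g + 1) * (mu g) ^ N)

/-- RB-CHAIN -/
def S_CHAIN : Prop := ∀ (k : ℕ) (Q : Type) (g N : ℕ)
  (W : (Fin (g + 1) → Fin N → Bool) → List (Fin 4)) (M : NMach (Fin 4) k Q)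
  (K : Finset (NCfg k Q)) (b : Fin (g + 1) → Fin N → Bool) (D d T : ℕ) (ρ : ℕ → NCfg k Q)
  (h : Fin k), 1 ≤ d →
  (∀ t t', t ≤ t' → t' ≤ T → (∀ s, t < s → s < t' → ¬ Pool.Agent.H38R3.MH.Mark D (ρ s)) →
    ∃ r, Ph W M b r (ρ t) (ρ t')) →
  (∀ t t', t ≤ t' → t' ≤ T → mvs ρ h t t' ≤ d → ∃ r, Ph W M b r (ρ t) (ρ t')) →
  (∀ s, s ≤ T → Pool.Agent.H38R3.MH.Mark D (ρ s) → ρ s ∈ K) → ρ 0 ∈ K → (ρ T).q ∈ M.F →
  Acc W M K b (2 * (mvs ρ h 0 T / d + 1)) (ρ 0)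

/-- RB-SLOW: a piece in which head `h` moves slowly, outside the zone `Z` -/
def S_SLOW : Prop := ∀ (α Q : Type) (M : NMach α 2 Q) (U Z Z' U' : List α), U ≠ [] →
  Z.length = Z'.length → 1 ≤ Z.length → ∀ d : ℕ,
  (∀ T : Table (Q × ℕ) α, Graded T → ∀ (e s : Bool) (x y : Q × ℕ), y.2 ≤ x.2 + d →
    Beh Z T e x s y → Beh Z' T e x s y) →
  ∀ (h : Fin 2) (ρ : ℕ → NCfg 2 Q) (t m : ℕ),
  (∀ s, t ≤ s → s < t + m → M.Step (U ++ Z ++ U') (ρ s) (ρ (s + 1))) →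
  (∀ s, t ≤ s → s ≤ t + m → Out U Z ((ρ s).p h)) →
  (∀ i, Out U Z ((ρ t).p i)) → (∀ i, Out U Z ((ρ (t + m)).p i)) →
  mvs ρ h t (t + m) ≤ d →
  Relation.ReflTransGen (M.Step (U ++ Z' ++ U')) (ρ t) (ρ (t + m))

/-- RB-ROW -/
def S_ROW : Prop := ∀ (Q : Type) (C : Code Q) (k : ℕ), 1 ≤ k →
  (Beh (C.zone (blk k true) ++ C.zone (blk k true)) : Table Q (Fin 4) → _) =
    Beh (C.zone (blk k true)) →
  ∀ (d : ℕ) (P P' : List Bool), (∀ β β' : List Bool, Rel d (P ++ β ++ P') (P ++ β' ++ P')) →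
  ∀ (M : NMach (Fin 4) 2 Q) (N : ℕ) (b : Fin (3 * 2 + 1) → Fin N → Bool) (h : Fin 2)
    (ρ : ℕ → NCfg 2 Q) (T : ℕ), 1 ≤ N →
  d ≤ (P.length + N + P'.length) * k * (C.x₁.length + 1) →
  (∀ s, s < T → M.Step (C.W (hat k P P' b)) (ρ s) (ρ (s + 1))) →
  (∀ s, s ≤ T → ∀ i, (ρ s).p i ≤ (C.W (hat k P P' b)).length + 1) →
  ∀ t t', t ≤ t' → t' ≤ T → mvs ρ h t t' ≤ d →
    ∃ r, Ph (fun b => C.W (hat k P P' b)) M b r (ρ t) (ρ t')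

/-- RB-GAP -/
def S_GAP : Prop := ∀ (Q : Type) (C : Code Q) (k : ℕ) (P P' : List Bool)
  (M : NMach (Fin 4) 2 Q) (N : ℕ) (b : Fin (3 * 2 + 1) → Fin N → Bool)
    (ρ : ℕ → NCfg 2 Q) (T : ℕ), 1 ≤ k → 1 ≤ N →
  (∀ s, s < T → M.Step (C.W (hat k P P' b)) (ρ s) (ρ (s + 1))) →
  (∀ s, s ≤ T → ∀ i, (ρ s).p i ≤ (C.W (hat k P P' b)).length + 1) →
  ∀ t t', t ≤ t' → t' ≤ T →
  (∀ s, t < s → s < t' →
    ¬ Pool.Agent.H38R3.MH.Mark ((P.length + N + P'.length) * k * (C.x₁.length + 1) + 1) (ρ s)) →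
    ∃ r, Ph (fun b => C.W (hat k P P' b)) M b r (ρ t) (ρ t')

/-- RB-FINAL -/
def S_FINAL : Prop := ∀ (Q : Type) [Fintype Q], ∃ c : ℝ, 0 < c ∧ ∀ n₀ : ℕ, ∃ n : ℕ, n₀ ≤ n ∧
  ∀ (M : NMach (Fin 4) 2 Q),
    (∀ w : List (Fin 4), w.length = n → (w ∈ theLang ↔ M.Accepts w)) →
    ∃ w : List (Fin 4), w.length = n ∧ w ∈ theLang ∧ ∀ (T : ℕ) (ρ : ℕ → NCfg 2 Q),
      M.AccRun w T ρ → ∀ h : Fin 2, c * ((n : ℝ) * Real.log n) ≤ mvs ρ h 0 T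

end Pool.Agent.TH431.RB
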